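import Pool.Agent.Helper93.LCY.Val6
import Pool.Agent.Helper27.LCY.BR1

/-!
BR8 and BR9 for the function field of a surface.
-/

open Polynomial

namespace LCY

theorem surf93 {L : Type} [Field L] [Algebra ℂ L] (h : Algebra.trdeg ℂ L = 2)
    (s : Finset L) (hs : IntermediateField.adjoin ℂ (s : Set L) = ⊤) : Surf L :=
  ⟨h, s, s.finite_toSet, hs⟩

theorem surf_of_BR1 (h1 : ST_BR1) {N : ℕ} (Y : Var N) (hY : Y.HasDim 2) : Surf Y.L :=
  ⟨(h1 N Y hY).1, _, Set.finite_range _, (h1 N Y hY).2⟩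

theorem st_BR8 (h1 : ST_BR1) : ST_BR8 := by
  intro N Y hY B v
  exact ⟨v.wt B, fun t π ht hπ0 hπ => v.br_val (surf_of_BR1 h1 Y hY) B ht hπ0 hπ⟩

theorem st_BR9 (h1 : ST_BR1) : ST_BR9 := by
  intro N Y hY B v k hk a b ha hb hab
  have h := v.br_ge' (surf_of_BR1 h1 Y hY) B ha hb hab
  rwa [v.wt_eq (surf_of_BR1 h1 Y hY) B hk] at h

/-- B0 in terms of `Wt`. -/
theorem br_ge_of_Wt {L : Type} [Field L] [Algebra ℂ L] (hL : Surf L) (ω : Bracket L) (v : DVal L)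
    {k : ℤ} (hk : ω.Wt v k) {a b : L} (ha : v.Int a) (hb : v.Int b) (hab : ω.br a b ≠ 0) :
    - k ≤ v.v (ω.br a b) := by
  have h := v.br_ge hL ω ha hb hab
  rwa [v.wt_eq hL ω hk] at h

/-- BR9 in terms of `Wt`. -/
theorem br_ge'_of_Wt {L : Type} [Field L] [Algebra ℂ L] (hL : Surf L) (ω : Bracket L) (v : DVal L)
    {k : ℤ} (hk : ω.Wt v k) {a b : L} (ha : a ≠ 0) (hb : b ≠ 0) (hab : ω.br a b ≠ 0) :
    v.v a + v.v b - 1 - k ≤ v.v (ω.br a b) := by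
  have h := v.br_ge' hL ω ha hb hab
  rwa [v.wt_eq hL ω hk] at h

/-- B2 in terms of `Wt`. -/
theorem br_pair_of_Wt {L : Type} [Field L] [Algebra ℂ L] (hL : Surf L) (ω : Bracket L)
    (v : DVal L) {k : ℤ} (hk : ω.Wt v k) {a b : L}
    (hab : IntermediateField.adjoin ℂ {a, b} = ⊤) (ha : v.Int a) (hb : v.Int b)
    (h : (∀ c : ℂ, ¬ v.Pos (a - algebraMap ℂ L c)) ∨ ∀ c : ℂ, ¬ v.Pos (b - algebraMap ℂ L c)) :
    ω.br a b ≠ 0 ∧ v.v (ω.br a b) = - k := by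
  have h1 := v.br_pair hL ω hab ha hb h
  rwa [v.wt_eq hL ω hk] at h1

end LCY

namespace LCY

theorem br8 : ST_BR8 := st_BR8 br1

theorem br9 : ST_BR9 := st_BR9 br1

end LCY
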