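import Pool.Agent.Helper51.LCY.P2

/-!
Divisorial valuations of a function field of transcendence degree two: basic laws, the valuation
ring, the description of `ℂ(t, π)`.
-/

open Polynomial

namespace LCY

variable {L : Type} [Field L] [Algebra ℂ L]

namespace DVal

variable (v : DVal L)

theorem int_of_pos93 {a : L} (ha : v.Pos a) : v.Int a := by
  rcases ha with ha | ha
  · exact Or.inl ha
  · exact Or.inr (by omega)

theorem pos_zero93 : v.Pos 0 := Or.inl rfl

/-- Elements of value at least one. -/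
theorem pos_iff93 {a : L} : v.Pos a ↔ a ≠ 0 → 0 < v.v a := by
  unfold Pos
  tauto

theorem int_iff93 {a : L} : v.Int a ↔ (a ≠ 0 → 0 ≤ v.v a) := by
  unfold Int
  tauto

theorem pos_sub93 {a b : L} (ha : v.Pos a) (hb : v.Pos b) : v.Pos (a - b) := by
  rw [sub_eq_add_neg]
  exact v.pos_add ha (v.pos_neg hb)

theorem pos_mul_left93 {a b : L} (ha : v.Pos a) (hb : v.Int b) : v.Pos (a * b) := by
  by_cases h1 : a = 0
  · left
    rw [h1, zero_mul]
  by_cases h2 : b = 0
  · left
    rw [h2, mul_zero]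
  right
  rw [v.map_mul _ _ h1 h2]
  have ha' := ha.resolve_left h1
  have hb' := hb.resolve_left h2
  omega

theorem pos_mul_right93 {a b : L} (ha : v.Int a) (hb : v.Pos b) : v.Pos (a * b) := by
  rw [mul_comm]
  exact v.pos_mul_left93 hb ha

theorem pos_sum93 {ι : Type*} (s : Finset ι) (f : ι → L) (h : ∀ i ∈ s, v.Pos (f i)) :
    v.Pos (∑ i ∈ s, f i) :=
  Finset.sum_induction f v.Pos (fun _ _ => v.pos_add) v.pos_zero93 h

/-- An integral element is in the maximal ideal or a unit. -/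
theorem pos_or93 {a : L} (ha : v.Int a) : v.Pos a ∨ (a ≠ 0 ∧ v.v a = 0) := by
  by_cases h1 : a = 0
  · exact Or.inl (Or.inl h1)
  have h2 := ha.resolve_left h1
  rcases h2.lt_or_eq with h3 | h3
  · exact Or.inl (Or.inr h3)
  · exact Or.inr ⟨h1, h3.symm⟩

theorem unit_of93 {a : L} (ha : v.Int a) (h : ¬ v.Pos a) : a ≠ 0 ∧ v.v a = 0 :=
  (v.pos_or93 ha).resolve_left h

theorem not_pos_of_unit93 {a : L} (h0 : a ≠ 0) (h : v.v a = 0) : ¬ v.Pos a := by
  rintro (h1 | h1)
  · exact h0 h1
  · rw [h] at h1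
    exact lt_irrefl _ h1

theorem int_inv_of_unit93 {a : L} (h0 : a ≠ 0) (h : v.v a = 0) : v.Int a⁻¹ := by
  right
  rw [v.map_inv h0, h, neg_zero]

theorem int_of_v93 {a : L} (h : 0 ≤ v.v a) : v.Int a := Or.inr h

/-- a unit plus an element of the maximal ideal is a unit -/
theorem unit_add_pos93 {a b : L} (h0 : a ≠ 0) (h : v.v a = 0) (hb : v.Pos b) :
    a + b ≠ 0 ∧ v.v (a + b) = 0 := by
  refine v.unit_of93 (v.int_add (Or.inr h.ge) (v.int_of_pos93 hb)) ?_
  intro h1
  apply v.not_pos_of_unit93 h0 h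
  have h2 := v.pos_sub93 h1 hb
  rwa [add_sub_cancel_right] at h2

theorem int_of_mul_pos93 {a π : L} (hπ0 : π ≠ 0) (hπ : v.v π = 1) (h : v.Pos a) :
    v.Int (π⁻¹ * a) := by
  by_cases h1 : a = 0
  · left
    rw [h1, mul_zero]
  right
  rw [v.map_mul _ _ (inv_ne_zero hπ0) h1, v.map_inv hπ0, hπ]
  have := h.resolve_left h1
  omega

/-- The valuation ring. -/
def sub93 : ValuationSubring L where
  carrier := {a | v.Int a}
  mul_mem' := fun ha hb => v.int_mul ha hb
  one_mem' := v.int_one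
  add_mem' := fun ha hb => v.int_add ha hb
  zero_mem' := v.int_zero
  neg_mem' := fun ha => v.int_neg ha
  mem_or_inv_mem' := fun a => by
    by_cases h : a = 0
    · exact Or.inl (Or.inl h)
    rcases le_total 0 (v.v a) with h1 | h1
    · exact Or.inl (Or.inr h1)
    · right
      right
      rw [v.map_inv h]
      omega

theorem mem_sub93 {a : L} : a ∈ v.sub93 ↔ v.Int a := Iff.rfl

end DVal

end LCY
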