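import Pool.Agent.Helper93.LCY.DVStmts

/-!
COMPL: the map from a noetherian local ring to its completion.
-/

open IsLocalRing

namespace LCY

namespace H93

theorem mem_pow_iff {O : Type} [CommRing O] [IsLocalRing O] [IsNoetherianRing O] (n : ℕ)
    (x : AdicCompletion (maximalIdeal O) O) :
    x ∈ maximalIdeal (AdicCompletion (maximalIdeal O) O) ^ n ↔
      AdicCompletion.eval (maximalIdeal O) O n x = 0 := by
  rw [AdicCompletion.maximalIdeal_eq_map, ← Ideal.map_pow, ← Submodule.restrictScalars_mem O,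
    ← Ideal.smul_top_eq_map,
    AdicCompletion.pow_smul_top_eq_ker_eval (maximalIdeal O).fg_of_isNoetherianRing,
    LinearMap.mem_ker]

theorem eval_algebraMap {O : Type} [CommRing O] [IsLocalRing O] (n : ℕ) (a : O) :
    AdicCompletion.eval (maximalIdeal O) O n (algebraMap O _ a) = 0 ↔
      a ∈ maximalIdeal O ^ n := by
  change (Submodule.Quotient.mk a : O ⧸ (maximalIdeal O ^ n • ⊤ : Submodule O O)) = 0 ↔ _
  rw [Submodule.Quotient.mk_eq_zero]
  simp

theorem approx_aux {O : Type} [CommRing O] [IsLocalRing O] [IsNoetherianRing O] (n : ℕ)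
    (x : AdicCompletion (maximalIdeal O) O) :
    ∃ a : O, x - algebraMap O _ a ∈ maximalIdeal (AdicCompletion (maximalIdeal O) O) ^ n := by
  obtain ⟨a, ha⟩ := Submodule.Quotient.mk_surjective _
    (AdicCompletion.eval (maximalIdeal O) O n x)
  refine ⟨a, ?_⟩
  rw [mem_pow_iff, map_sub, sub_eq_zero, ← ha]
  rfl

theorem isLocalRing_equiv_map {A Q : Type} [CommRing A] [CommRing Q] [IsLocalRing A]
    [IsLocalRing Q] (e : A ≃+* Q) (n : ℕ) (x : A) :
    e x ∈ maximalIdeal Q ^ n ↔ x ∈ maximalIdeal A ^ n := by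
  have h1 : (maximalIdeal A).map e = maximalIdeal Q := by
    apply le_antisymm
    · rw [Ideal.map_le_iff_le_comap]
      intro y hy
      rw [Ideal.mem_comap, mem_maximalIdeal, mem_nonunits_iff]
      rw [mem_maximalIdeal, mem_nonunits_iff] at hy
      intro h
      exact hy ((MulEquiv.isUnit_map e).1 h)
    · intro y hy
      have h2 : e.symm y ∈ maximalIdeal A := by
        rw [mem_maximalIdeal, mem_nonunits_iff]
        rw [mem_maximalIdeal, mem_nonunits_iff] at hy
        intro h
        exact hy ((MulEquiv.isUnit_map e.symm).1 h)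
      have h3 := Ideal.mem_map_of_mem e h2
      rwa [RingEquiv.apply_symm_apply] at h3
  rw [← h1, ← Ideal.map_pow]
  constructor
  · intro h
    rw [← Ideal.comap_symm, Ideal.mem_comap] at h
    rwa [RingEquiv.symm_apply_apply] at h
  · exact Ideal.mem_map_of_mem e

theorem isAdicComplete_equiv {A Q : Type} [CommRing A] [CommRing Q] [IsLocalRing A]
    [IsLocalRing Q] (e : A ≃+* Q) (h : IsAdicComplete (maximalIdeal A) A) :
    IsAdicComplete (maximalIdeal Q) Q where
  haus' := by
    intro x hx
    have h1 : e.symm x = 0 := by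
      apply h.haus' (e.symm x)
      intro n
      have h2 := hx n
      rw [SModEq.zero] at h2 ⊢
      rw [smul_eq_mul, Ideal.mul_top] at h2 ⊢
      rw [← isLocalRing_equiv_map e, RingEquiv.apply_symm_apply]
      exact h2
    rw [← RingEquiv.apply_symm_apply e x, h1, map_zero]
  prec' := by
    intro f hf
    have h1 := h.prec' (fun n => e.symm (f n)) (by
      intro m n hmn
      have h2 := hf hmn
      rw [SModEq.sub_mem] at h2 ⊢
      rw [smul_eq_mul, Ideal.mul_top] at h2 ⊢
      rw [← map_sub, ← isLocalRing_equiv_map e, RingEquiv.apply_symm_apply]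
      exact h2)
    obtain ⟨L, hL⟩ := h1
    refine ⟨e L, fun n => ?_⟩
    have h2 := hL n
    rw [SModEq.sub_mem] at h2 ⊢
    rw [smul_eq_mul, Ideal.mul_top] at h2 ⊢
    rw [← isLocalRing_equiv_map e, map_sub, RingEquiv.apply_symm_apply] at h2
    exact h2

end H93

theorem st_compl : ST_COMPL := by
  rintro O Q _ _ _ _ _ ⟨e⟩
  refine ⟨(e : AdicCompletion (maximalIdeal O) O →+* Q).comp (algebraMap O _), ?_, ?_, ?_⟩
  · intro n r
    obtain ⟨a, ha⟩ := H93.approx_aux n (e.symm r)
    refine ⟨a, ?_⟩
    rw [← H93.isLocalRing_equiv_map e, map_sub, RingEquiv.apply_symm_apply] at ha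
    exact ha
  · intro n a
    change e (algebraMap O _ a) ∈ _ ↔ _
    rw [H93.isLocalRing_equiv_map e, H93.mem_pow_iff, H93.eval_algebraMap]
  · exact H93.isAdicComplete_equiv e inferInstance

end LCY
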