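import Pool.Agent.Helper27.LCY.BrStmts

/-!
BR7 (log canonicity) split by the type of the centre.
-/

open MvPolynomial

namespace LCY

/-- The centre of `v` on `Y` is the point `p`. -/
def CentreAt {N : ℕ} (Y : Var N) (v : DVal Y.L) (p : Fin (N + 1) → ℂ) : Prop :=
  (∀ a ∈ Y.locRing (ptIdeal p), v.Int a) ∧
    ∀ a : Y.locRing (ptIdeal p), ¬ IsUnit a → v.Pos (a : Y.L)

/-- the common hypotheses of BR7 -/
structure BR7Hyp {N : ℕ} (Y : Var N) (D : Set (Var N)) (ω : Y.Forms) (B : Bracket Y.L) :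
    Prop where
  cy : LogCY Y D
  br : ∀ a b, Y.form 1 a b = B.br a b • ω
  off : ∀ C, Y.IsCurveOn C → C ∉ D → (Y.regForms C : Set Y.Forms) = Y.mults C ω
  on : ∀ C ∈ D, (Y.regForms C : Set Y.Forms) = Y.maxMults C ω

/-- centre a regular point of `Y` -/
def ST_SM : Prop := ∀ (N : ℕ) (Y : Var N) (D : Set (Var N)) (ω : Y.Forms) (B : Bracket Y.L),
  BR7Hyp Y D ω B → ∀ (v : DVal Y.L) (k : ℤ), B.Wt v k → ∀ p, Y.IsPt p → CentreAt Y v p →
  Y.Regular p → -1 ≤ k ∧ ((∀ C ∈ D, ¬ C.IsPt p) → 0 ≤ k)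

/-- centre a singular point of `Y` that is not on `D` -/
def ST_DV0 : Prop := ∀ (N : ℕ) (Y : Var N) (D : Set (Var N)) (ω : Y.Forms) (B : Bracket Y.L),
  BR7Hyp Y D ω B → ∀ (v : DVal Y.L) (k : ℤ), B.Wt v k → ∀ p, Y.IsPt p → CentreAt Y v p →
  ¬ Y.Regular p → Y.DuVal p → (∀ C ∈ D, ¬ C.IsPt p) → 0 ≤ k

/-- centre a singular point of `Y` on `D` -/
def ST_DV1 : Prop := ∀ (N : ℕ) (Y : Var N) (D : Set (Var N)) (ω : Y.Forms) (B : Bracket Y.L),
  BR7Hyp Y D ω B → ∀ (v : DVal Y.L) (k : ℤ), B.Wt v k → ∀ p, Y.IsPt p → CentreAt Y v p →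
  ¬ Y.Regular p → Y.DuVal p → ∀ C ∈ D, C.IsPt p → -1 ≤ k

theorem br7_of (h4 : ST_BR4) (h6 : ST_BR6) (hSM : ST_SM) (hDV0 : ST_DV0) (hDV1 : ST_DV1)
    (hWt : ∀ (N : ℕ) (Y : Var N), Y.HasDim 2 → ∀ (B : Bracket Y.L) (v : DVal Y.L) (k k' : ℤ),
      B.Wt v k → B.Wt v k' → k = k') : ST_BR7 := by
  intro N Y D hcy ω B hbr hoff hon v k hk
  have hyp : BR7Hyp Y D ω B := ⟨hcy, hbr, hoff, hon⟩
  have hpt : ∀ p, Y.IsPt p → CentreAt Y v p → -1 ≤ k ∧ ((∀ C ∈ D, ¬ C.IsPt p) → 0 ≤ k) := by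
    intro p hp hc
    by_cases hr : Y.Regular p
    · exact hSM N Y D ω B hyp v k hk p hp hc hr
    · have hd := (hcy.duVal p hp).resolve_left hr
      by_cases hD : ∀ C ∈ D, ¬ C.IsPt p
      · have h := hDV0 N Y D ω B hyp v k hk p hp hc hr hd hD
        exact ⟨by omega, fun _ => h⟩
      · refine ⟨?_, fun h => absurd h hD⟩
        push Not at hD
        obtain ⟨C, hC, hCp⟩ := hD
        exact hDV1 N Y D ω B hyp v k hk p hp hc hr hd C hC hCp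
  constructor
  · rcases h4 N Y hcy.surface hcy.normal v with ⟨_, C, hC, hCv⟩ | ⟨_, p, hp, h1, h2⟩
    · have h := h6 N Y hcy.surface hcy.normal ω B hbr C hC v hCv
      by_cases hCD : C ∈ D
      · have := hWt N Y hcy.surface B v _ _ hk (h.2 (hon C hCD))
        omega
      · have := hWt N Y hcy.surface B v _ _ hk (h.1 (hoff C hC hCD))
        omega
    · exact (hpt p hp ⟨h1, h2⟩).1
  · intro p hp hD h1 h2
    exact (hpt p hp ⟨h1, h2⟩).2 hD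

end LCY
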