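import Pool.Agent.Helper93.LCY.Geo

/-!
ST_DV0: Du Val points off the boundary.
-/

open MvPolynomial IsLocalRing

namespace LCY

namespace H93

variable {N : ℕ} {Y : Var N} {D : Set (Var N)} {ω : Y.Forms} {B : Bracket Y.L}

/-- The valuation of a curve of `Y` and the value of the 2-form. -/
theorem curve_val (h : BR7Hyp Y D ω B) {C : Var N} (hC : Y.IsCurveOn C) :
    ∃ v : DVal Y.L, (∀ a, v.Int a ↔ a ∈ Y.locRing C.I) ∧ (C ∉ D → B.Wt v 0) ∧
      (C ∈ D → B.Wt v (-1)) := by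
  obtain ⟨v, hv⟩ := br3 N Y h.cy.surface h.cy.normal C hC
  have h6 := br6 N Y h.cy.surface h.cy.normal ω B h.br C hC v hv
  exact ⟨v, hv, fun hD => h6.1 (h.off C hC hD), fun hD => h6.2 (h.on C hD)⟩

/-- Brackets of regular functions are regular. -/
theorem br_mem_loc (h : BR7Hyp Y D ω B) {p : Fin (N + 1) → ℂ} (hp : Y.IsPt p) (a b : Y.L)
    (ha : a ∈ Y.locRing (ptIdeal p)) (hb : b ∈ Y.locRing (ptIdeal p)) :
    B.br a b ∈ Y.locRing (ptIdeal p) := by
  have hS := surf_of_BR1 br1 Y h.cy.surface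
  apply br5 N Y h.cy.surface h.cy.normal p hp
  intro C hC hCp
  obtain ⟨v, hv, h0, h1⟩ := curve_val h hC
  have hle := loc_le Y p C hC.1 hCp
  rw [← hv]
  by_cases hne : B.br a b = 0
  · exact Or.inl hne
  right
  have hai := (hv a).2 (hle ha)
  have hbi := (hv b).2 (hle hb)
  by_cases hD : C ∈ D
  · have := br_ge_of_Wt hS B v (h1 hD) hai hbi hne
    omega
  · have := br_ge_of_Wt hS B v (h0 hD) hai hbi hne
    omega

/-- a bracket outside the prime of a curve not in `D` (or outside zero) -/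
theorem exists_notin (h : BR7Hyp Y D ω B) {p : Fin (N + 1) → ℂ} (hp : Y.IsPt p)
    [IsLocalRing (Y.locRing (ptIdeal p))]
    (hD : ∀ C ∈ D, ¬ C.IsPt p) (P : Ideal (Y.locRing (ptIdeal p))) [hP : P.IsPrime]
    (hPm : P ≠ maximalIdeal (Y.locRing (ptIdeal p))) :
    ∃ a b, brO _ B (fun a ha b hb => br_mem_loc h hp a b ha hb) a b ∉ P := by
  have hS := surf_of_BR1 br1 Y h.cy.surface
  by_cases hP0 : P = ⊥
  · obtain ⟨i, hi⟩ := exists_chart hp.1
    have hfrac := Y.frac_locRing (ptIdeal p) (Y.le_ptIdeal p hp) hi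
    have hden : ∀ z : Y.L, ∃ r : Y.locRing (ptIdeal p), r ∉ P ∧ (r : Y.L) * z ∈
        Y.locRing (ptIdeal p) := by
      intro z
      obtain ⟨a, b, hb, hz⟩ := IsFractionRing.div_surjective (Y.locRing (ptIdeal p)) z
      refine ⟨b, ?_, ?_⟩
      · rw [hP0, Ideal.mem_bot]
        exact nonZeroDivisors.ne_zero hb
      · have hb0 : (b : Y.L) ≠ 0 := by
          intro h0
          exact nonZeroDivisors.ne_zero hb (Subtype.ext h0)
        have h1 : (b : Y.L) * z = a := by
          rw [← hz]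
          change (b : Y.L) * ((a : Y.L) / (b : Y.L)) = a
          field_simp
        rw [h1]
        exact a.2
    obtain ⟨t, π, hne⟩ := B.ne_zero
    exact exists_br_notin _ B _ P (hden t) (hden π) hne (hden _)
  · obtain ⟨C, hC, hCp, hden⟩ := Y.curve_of_prime p h.cy.surface hp P hP0 hPm
    obtain ⟨v, hv, h0, -⟩ := curve_val h hC
    have hwt := h0 (fun hCD => hD C hCD hCp)
    obtain ⟨t, π, ht, hπ0, hπ, hne, hval⟩ := hwt
    have hti : v.Int t := by
      have h1 := ht Polynomial.X Polynomial.X_ne_zero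
      rw [Polynomial.aeval_X] at h1
      exact Or.inr h1.2.ge
    have hπi : v.Int π := Or.inr (by omega)
    refine exists_br_notin _ B _ P (hden t ((hv t).1 hti)) (hden π ((hv π).1 hπi)) hne
      (hden _ ((hv _).1 (Or.inr ?_)))
    rw [v.map_inv hne, hval]
    norm_num

theorem prim_br (h : BR7Hyp Y D ω B) {p : Fin (N + 1) → ℂ} (hp : Y.IsPt p)
    [IsLocalRing (Y.locRing (ptIdeal p))] [IsNoetherianRing (Y.locRing (ptIdeal p))]
    (hD : ∀ C ∈ D, ¬ C.IsPt p) :
    ∃ n : ℕ, maximalIdeal (Y.locRing (ptIdeal p)) ^ n ≤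
      Ideal.span {c | ∃ a b, brO _ B (fun a ha b hb => br_mem_loc h hp a b ha hb) a b = c} := by
  refine Ideal.exists_pow_le_of_le_radical_of_fg ?_ (Ideal.fg_of_isNoetherianRing _)
  rw [Ideal.radical_eq_sInf]
  refine le_sInf ?_
  rintro P ⟨hPI, hP⟩
  by_cases hPm : P = maximalIdeal (Y.locRing (ptIdeal p))
  · rw [hPm]
  · exfalso
    obtain ⟨a, b, hab⟩ := exists_notin h hp hD P hPm
    exact hab (hPI (Ideal.subset_span ⟨a, b, rfl⟩))

theorem maxIdeal_eq (p : Fin (N + 1) → ℂ) [IsLocalRing (Y.locRing (ptIdeal p))] :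
    Y.maxIdeal (ptIdeal p) = maximalIdeal (Y.locRing (ptIdeal p)) := by
  apply le_antisymm
  · unfold Var.maxIdeal
    rw [Ideal.span_le]
    intro x hx
    exact (mem_maximalIdeal x).2 hx
  · intro x hx
    exact Ideal.subset_span ((mem_maximalIdeal x).1 hx)

end H93

open H93 in
theorem st_DV0 (hADE : ST_ADE) (hLIM : ST_LIM) (hVH : ST_VH) : ST_DV0 := by
  intro N Y D ω B h v k hk p hp hc _ hdv hD
  obtain ⟨i, hi⟩ := exists_chart hp.1
  have hIJ := Y.le_ptIdeal p hp
  have hloc := Y.isLocalRing_locRing (ptIdeal p) hIJ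
  have hnoeth := Y.noeth_locRing (ptIdeal p) hIJ hi
  have hS := surf_of_BR1 br1 Y h.cy.surface
  obtain ⟨f, hf, he⟩ := hdv
  rw [maxIdeal_eq p] at he
  refine dv0_core hADE hLIM hVH (Y.locRing (ptIdeal p)) B v k
    (fun a ha b hb => br_mem_loc h hp a b ha hb)
    (fun a b ha hb hab => br_ge'_of_Wt hS B v hk ha hb hab) hc.1
    (fun a ha => hc.2 a ((mem_maximalIdeal a).1 ha)) (const_mem Y p hp) (prim_br h hp hD)
    (fun e he n => not_pow_le Y p h.cy.surface hp e he n) ?_ hf he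
  intro hm
  have h1 := not_pow_le Y p h.cy.surface hp 0 (Ideal.zero_mem _) 1
  apply h1
  rw [pow_one, hm]
  exact bot_le

end LCY
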