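import Pool.Agent.Helper93.LCY.BR7Pre
import Pool.Agent.Helper27.LCY.Wire
import Pool.Agent.Helper48.LCY.Main
import Pool.Agent.Helper26.LC.CB3
import Pool.Agent.Helper36.LCY.NR
import Pool.Agent.Helper36.LCY.Cone
import Pool.Agent.Helper36.LCY.M3
import Pool.Agent.Helper36.LCY.SW
import Pool.Agent.Helper50.LCY.Div
import Pool.Agent.Helper50.LCY.B2K
import Pool.Agent.Helper50.LCY.TY
import Pool.Agent.Helper84.LCY.Genus0
import Pool.Agent.Helper84.LCY.Qd
import Pool.Agent.Helper84.LCY.Qs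
import Pool.Agent.Helper84.LCY.Nc
import Pool.Agent.Helper84.LCY.Place
import Pool.Agent.Helper74.LY.PT
import Pool.Agent.Helper11.LCY.Out2
import Pool.Agent.Helper82.LCY.Qtab
import Pool.Agent.Helper82.LCY.Fib
import Pool.Agent.Helper97.LCY.C5
import Pool.Agent.Helper97.LCY.C1
import Pool.Agent.Helper97.LCY.D7
import Pool.Agent.Helper97.LCY.D0
import Pool.Agent.Helper81.LCY.ClD
import Pool.Agent.Helper81.LCY.SMe
import Pool.Agent.Helper62.LCY.EXC
import Pool.Agent.Helper62.LCY.N6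
import Pool.Agent.Helper99.LCY.CovMain
import Pool.Agent.Helper98.LCY.Int
import Pool.Agent.Helper98.LCY.LocG
import Pool.Agent.Helper27.LCY.PG

/-!
All rows of MP_f7e214_ag, chained.
-/

namespace LCY

namespace H93

theorem a5 : ST_A5 := H81.st_A5
theorem a6 : ST_A6 := H81.st_A6
theorem a7 : ST_A7 := H81.st_A7
theorem a8 : ST_A8 := H81.st_A8
theorem a9 : ST_A9 := H81.st_A9
theorem a10 : ST_A10 := H81.st_A10
theorem a11 : ST_A11 := LCY.a11
theorem a12 : ST_A12 := H81.st_A12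
theorem a13 : ST_A13 := H98.st_A13
theorem a14 : ST_A14 := H98.st_A14
theorem a15 : ST_A15 := H98.st_A15
theorem a16 : ST_A16 := H98.st_A16
theorem a17 : ST_A17 := H98.st_A17
theorem a18 : ST_A18 := H98.st_A18

theorem b1 : ST_B1 := H81.st_B1 a16 a17
theorem b3 : ST_B3 := H50.st_B3 a16 a17 a18 b1
theorem b4 : ST_B4 := H50.st_B4 a16 a17 a18
theorem b2k : ST_B2K := H50.st_B2K a16 a17
theorem ty : ST_TY := H50.st_TY a17 a18
theorem qa : ST_QA := H82.st_QA a16 a17 a18 b1 b3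
theorem qb : ST_QB := H82.st_QB a16 a17 a18 b1 b3
theorem qc : ST_QC := H82.st_QC a16 a17 a18 b1 b3
theorem qs : ST_QS := LCY.qs_main a17 a18 qa qb qc
theorem nc : ST_NC := LCY.nc_main a6 a7
theorem sw : ST_SW := H36.sw
theorem d0 : ST_D0 := H97.st_D0 a6 a9 a10 a16 a17
theorem d7 : ST_D7 := H97.st_D7 a5 a9 a10 a16 a17 a18
theorem c1 : ST_C1 := H97.st_C1 a9 a17 d0 d7 b3
theorem c5 : ST_C5 := H97.st_C5 b1 b4 c1
theorem m3 : ST_M3 := H36.m3 b1 b2k
theorem tc : ST_TC := H11.tc_of a17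
theorem out1 : ST_OUT1 := H11.out1 H27.st_PG a6 a7 a8 a15 a17 a18
theorem out2 : ST_OUT2 := H11.out2 H27.st_PG a6 a7 a8 a17 a18 ty out1
theorem cone : ST_CONE := H36.cone LCY74.pt LCY.place_main

theorem qd (hNA : ST_NA) (hNB : ST_NB) : ST_QD :=
  LCY.qd_main a6 a7 a13 a14 a17 a18 sw hNA hNB nc qs

theorem step3 (hS : ST_STEP) : ST_STEP3 := H11.step3 hS tc ty out1 out2

theorem cov (hG : ST_COVG) : ST_COV := cov_of hG m3

theorem int (hb : ST_BEZ) (hn : ST_NOE) : ST_INT := H98.st_INT hb hn H62.st_EXC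

theorem main (h1 : ST_STEP1) (hS : ST_STEP) (hT : ST_T0) (hG : ST_COVG) : ST_MAIN :=
  H48.all H48.rules nr genus0 st_CB cone h1 (step3 hS) hT (cov hG)

theorem question (hADE : ST_ADE) (hDV1 : ST_DV1) (h1 : ST_STEP1) (hS : ST_STEP) (hT : ST_T0)
    (hG : ST_COVG) : Question :=
  wire' (main h1 hS hT hG) (br7_pre hADE H81.st_SM hDV1)

end H93

end LCY
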