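import Pool.Agent.Helper93.LCY.BR7Stmts
import Pool.Agent.Helper93.LCY.BR89
import Pool.Agent.Helper93.LCY.DV0
import Pool.Agent.Helper49.LCY.LIM
import Pool.Agent.Helper49.LCY.VH
import Pool.Agent.Helper27.LCY.BR4
import Pool.Agent.Helper27.LCY.BR6

/-!
BR7 from its three remaining rows.
-/

namespace LCY

theorem br7_pre (hADE : ST_ADE) (hSM : ST_SM) (hDV1 : ST_DV1) : ST_BR7 := by
  refine br7_of br4 br6 hSM (st_DV0 hADE H49.st_LIM H49.st_VH) hDV1 ?_
  intro N Y hY B v k k' hk hk'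
  exact (v.wt_eq (surf_of_BR1 br1 Y hY) B hk).symm.trans (v.wt_eq (surf_of_BR1 br1 Y hY) B hk')

end LCY
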