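import Pool.Agent.Helper27.LCY.Defs

/-!
Du Val points: statements of the rows about the completed local ring.
-/

open IsLocalRing

namespace LCY

/-- A ring homomorphism from a local ring to a complete local ring that behaves like the map to
the completion. -/
structure Dense {O Q : Type} [CommRing O] [CommRing Q] [IsLocalRing O] [IsLocalRing Q]
    (ι : O →+* Q) : Prop where
  approx : ∀ (n : ℕ) (r : Q), ∃ a : O, r - ι a ∈ maximalIdeal Q ^ n
  mem : ∀ (n : ℕ) (a : O), ι a ∈ maximalIdeal Q ^ n ↔ a ∈ maximalIdeal O ^ n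
  compl : IsAdicComplete (maximalIdeal Q) Q

/-- Alternating biderivations of a commutative ring. -/
structure IsBD {O : Type} [CommRing O] (br : O → O → O) : Prop where
  add_left : ∀ a b c, br (a + b) c = br a c + br b c
  mul_left : ∀ a b c, br (a * b) c = a * br b c + b * br a c
  alt : ∀ a, br a a = 0
  skew : ∀ a b, br a b = - br b a

/-- What is used about the complete local rings of the Du Val singularities
`x ^ 2 + g(y, z) = 0` (`gy`, `gz` are the partial derivatives of `g`). -/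
structure ADEOut (Q : Type) [CommRing Q] [IsLocalRing Q] (x y z gy gz : Q) : Prop where
  noeth : IsNoetherianRing Q
  gen : maximalIdeal Q = Ideal.span {x, y, z}
  emb : ∀ a b c : Q, a * x + b * y + c * z ∈ maximalIdeal Q ^ 2 →
    a ∈ maximalIdeal Q ∧ b ∈ maximalIdeal Q ∧ c ∈ maximalIdeal Q
  der : ∀ δ : Q → Q, (∀ a b, δ (a + b) = δ a + δ b) → (∀ a b, δ (a * b) = a * δ b + b * δ a) →
    2 * x * δ x + gy * δ y + gz * δ z = 0
  syz : ∀ A B C : Q, 2 * x * C = gz * A → 2 * x * B = gy * A →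
    ∃ ε, A = 2 * x * ε ∧ B = gy * ε ∧ C = gz * ε
  prim : ∃ n : ℕ, maximalIdeal Q ^ n ≤ Ideal.span {x, gy, gz}
  val : ∀ vh : Q → ℕ∞, (∀ a b, vh (a * b) = vh a + vh b) →
    (∀ a b, min (vh a) (vh b) ≤ vh (a + b)) → (∀ n : ℕ, n ≠ 0 → vh (n : Q) = 0) →
    1 ≤ vh x → 1 ≤ vh y → 1 ≤ vh z → vh y + vh z ≤ vh x → vh z + vh x ≤ vh gy →
    vh x + vh y ≤ vh gz → vh x = ⊤ ∧ vh y = ⊤ ∧ vh z = ⊤

/-- ADE. The ring theory of the five types of equations. -/
def ST_ADE : Prop := ∀ f : PS, IsADE f → ∃ (_ : IsLocalRing (PS ⧸ Ideal.span {f}))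
  (gy gz : PS ⧸ Ideal.span {f}), ADEOut (PS ⧸ Ideal.span {f})
    (Ideal.Quotient.mk _ (MvPowerSeries.X 0)) (Ideal.Quotient.mk _ (MvPowerSeries.X 1))
    (Ideal.Quotient.mk _ (MvPowerSeries.X 2)) gy gz

/-- COMPL. The map to the completion. -/
def ST_COMPL : Prop := ∀ (O Q : Type) [CommRing O] [CommRing Q] [IsLocalRing O]
  [IsNoetherianRing O] [IsLocalRing Q], Nonempty (AdicCompletion (maximalIdeal O) O ≃+* Q) →
  ∃ ι : O →+* Q, Dense ι

/-- LIM. Biderivations extend to the completion. -/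
def ST_LIM : Prop := ∀ (O Q : Type) [CommRing O] [CommRing Q] [IsLocalRing O] [IsLocalRing Q]
  (ι : O →+* Q), Dense ι → ∀ br : O → O → O, IsBD br →
  ∃ brQ : Q → Q → Q, IsBD brQ ∧ ∀ (n : ℕ) (r s : Q) (a b : O),
    r - ι a ∈ maximalIdeal Q ^ (n + 1) → s - ι b ∈ maximalIdeal Q ^ (n + 1) →
    brQ r s - ι (br a b) ∈ maximalIdeal Q ^ n

/-- VH. Valuations extend to the completion (with the value infinity allowed). -/
def ST_VH : Prop := ∀ (O Q : Type) [CommRing O] [CommRing Q] [IsLocalRing O] [IsLocalRing Q]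
  (ι : O →+* Q), Dense ι → ∀ w : O → ℕ∞, (∀ a b, w (a * b) = w a + w b) →
  (∀ a b, min (w a) (w b) ≤ w (a + b)) → (∀ a ∈ maximalIdeal O, 1 ≤ w a) → w 0 = ⊤ → w 1 = 0 →
  ∃ vh : Q → ℕ∞, (∀ a b, vh (a * b) = vh a + vh b) ∧ (∀ a b, min (vh a) (vh b) ≤ vh (a + b)) ∧
    (∀ a, vh (ι a) = w a) ∧ (∀ (n : ℕ), ∀ r ∈ maximalIdeal Q ^ n, (n : ℕ∞) ≤ vh r) ∧
    ∀ (n : ℕ) (r : Q) (a : O), r - ι a ∈ maximalIdeal Q ^ n → w a < n → vh r = w a

end LCY
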