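import Pool.Agent.Helper93.LCY.DVStmts

/-!
General lemmas for the Du Val rows: brackets of the completion are combinations of the brackets
of the generators; closedness of ideals.
-/

open IsLocalRing

namespace LCY

namespace H93

section closed

variable {Q : Type} [CommRing Q] [IsLocalRing Q] [IsNoetherianRing Q]

/-- Ideals of a noetherian local ring are closed. -/
theorem closed (J : Ideal Q) {r : Q} (h : ∀ n : ℕ, r ∈ J ⊔ maximalIdeal Q ^ n) : r ∈ J := by
  have hH : IsHausdorff (maximalIdeal Q) (Q ⧸ J) := inferInstance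
  rw [← Ideal.Quotient.eq_zero_iff_mem]
  apply hH.haus'
  intro n
  rw [SModEq.zero]
  obtain ⟨a, ha, b, hb, rfl⟩ := Submodule.mem_sup.1 (h n)
  rw [map_add, Ideal.Quotient.eq_zero_iff_mem.2 ha, zero_add]
  have h1 : (Ideal.Quotient.mk J b : Q ⧸ J) = b • (1 : Q ⧸ J) := by
    rw [Algebra.smul_def, mul_one]
    rfl
  rw [h1]
  exact Submodule.smul_mem_smul hb trivial

end closed

section gens

variable {Q : Type} [CommRing Q] [IsLocalRing Q]

/-- Approximation by polynomials in the generators of the maximal ideal. -/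
theorem poly_approx (κ : ℂ →+* Q) (hκ : ∀ r : Q, ∃ c : ℂ, r - κ c ∈ maximalIdeal Q)
    {x y z : Q} (hgen : maximalIdeal Q = Ideal.span {x, y, z}) (n : ℕ) :
    ∀ r : Q, ∃ P ∈ Subring.closure (Set.range κ ∪ {x, y, z}), r - P ∈ maximalIdeal Q ^ n := by
  induction n with
  | zero =>
    intro r
    exact ⟨0, Subring.zero_mem _, by rw [pow_zero, Ideal.one_eq_top]; trivial⟩
  | succ n ih =>
    intro r
    obtain ⟨c, hc⟩ := hκ r
    have hc' := hc
    rw [hgen, Ideal.mem_span_insert] at hc'
    obtain ⟨a, s, hs, hrs⟩ := hc'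
    rw [Ideal.mem_span_pair] at hs
    obtain ⟨b, d, hbd⟩ := hs
    obtain ⟨Pa, hPa, ha⟩ := ih a
    obtain ⟨Pb, hPb, hb⟩ := ih b
    obtain ⟨Pd, hPd, hd⟩ := ih d
    have hx : x ∈ Subring.closure (Set.range κ ∪ {x, y, z}) := Subring.subset_closure (by simp)
    have hy : y ∈ Subring.closure (Set.range κ ∪ {x, y, z}) := Subring.subset_closure (by simp)
    have hz : z ∈ Subring.closure (Set.range κ ∪ {x, y, z}) := Subring.subset_closure (by simp)
    have hxM : x ∈ maximalIdeal Q := by rw [hgen]; exact Ideal.subset_span (by simp)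
    have hyM : y ∈ maximalIdeal Q := by rw [hgen]; exact Ideal.subset_span (by simp)
    have hzM : z ∈ maximalIdeal Q := by rw [hgen]; exact Ideal.subset_span (by simp)
    refine ⟨κ c + (Pa * x + (Pb * y + Pd * z)), ?_, ?_⟩
    · exact Subring.add_mem _ (Subring.subset_closure (Or.inl ⟨c, rfl⟩))
        (Subring.add_mem _ (Subring.mul_mem _ hPa hx) (Subring.add_mem _
          (Subring.mul_mem _ hPb hy) (Subring.mul_mem _ hPd hz)))
    · have h1 : r - (κ c + (Pa * x + (Pb * y + Pd * z))) =
          (a - Pa) * x + ((b - Pb) * y + (d - Pd) * z) := by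
        have h2 : r = κ c + (a * x + (b * y + d * z)) := by
          rw [hbd, ← hrs]
          ring
        rw [h2]
        ring
      rw [h1, pow_succ]
      exact Ideal.add_mem _ (Ideal.mul_mem_mul ha hxM)
        (Ideal.add_mem _ (Ideal.mul_mem_mul hb hyM) (Ideal.mul_mem_mul hd hzM))

end gens

section bd

variable {Q : Type} [CommRing Q] {br : Q → Q → Q} (h : IsBD br)

include h

theorem bd_zero_left (a : Q) : br 0 a = 0 := by
  have h1 := h.add_left 0 0 a
  rw [add_zero] at h1
  have h2 : br 0 a + 0 = br 0 a + br 0 a := by rw [add_zero]; exact h1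
  exact (add_left_cancel h2).symm

theorem bd_neg_left (a b : Q) : br (-a) b = - br a b := by
  have h1 := h.add_left (-a) a b
  rw [neg_add_cancel, bd_zero_left h] at h1
  linear_combination -h1

theorem bd_sub_left (a b c : Q) : br (a - b) c = br a c - br b c := by
  rw [sub_eq_add_neg, h.add_left, bd_neg_left h, ← sub_eq_add_neg]

theorem bd_add_right (a b c : Q) : br a (b + c) = br a b + br a c := by
  rw [h.skew a (b + c), h.add_left, h.skew b a, h.skew c a]
  ring

theorem bd_mul_right (a b c : Q) : br a (b * c) = b * br a c + c * br a b := by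
  rw [h.skew a (b * c), h.mul_left, h.skew b a, h.skew c a]
  ring

theorem bd_neg_right (a b : Q) : br a (-b) = - br a b := by
  rw [h.skew, bd_neg_left h, h.skew b a]
  ring

theorem bd_sub_right (a b c : Q) : br a (b - c) = br a b - br a c := by
  rw [sub_eq_add_neg, bd_add_right h, bd_neg_right h, ← sub_eq_add_neg]

/-- brackets of elements of a subring generated by constants and three elements -/
theorem bd_closure_left (κ : Set Q) (hκ : ∀ c ∈ κ, ∀ s, br c s = 0) {x y z : Q} (J : Ideal Q)
    (s : Q) (hx : br x s ∈ J) (hy : br y s ∈ J) (hz : br z s ∈ J) {P : Q}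
    (hP : P ∈ Subring.closure (κ ∪ {x, y, z})) : br P s ∈ J := by
  induction hP using Subring.closure_induction with
  | mem a ha =>
    rcases ha with ha | ha | ha | ha
    · rw [hκ a ha]
      exact J.zero_mem
    · rw [ha]
      exact hx
    · rw [ha]
      exact hy
    · rw [show a = z from ha]
      exact hz
  | zero =>
    rw [bd_zero_left h]
    exact J.zero_mem
  | one =>
    have h1 := h.mul_left 1 1 s
    rw [mul_one, one_mul] at h1
    have h2 : br 1 s + 0 = br 1 s + br 1 s := by rw [add_zero]; exact h1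
    rw [← add_left_cancel h2]
    exact J.zero_mem
  | add a b _ _ ha hb =>
    rw [h.add_left]
    exact J.add_mem ha hb
  | neg a _ ha =>
    rw [bd_neg_left h]
    exact J.neg_mem ha
  | mul a b _ _ ha hb =>
    rw [h.mul_left]
    exact J.add_mem (J.mul_mem_left _ hb) (J.mul_mem_left _ ha)

theorem bd_closure (κ : Set Q) (hκ : ∀ c ∈ κ, ∀ s, br c s = 0) {x y z : Q} (J : Ideal Q)
    (hxy : br x y ∈ J) (hyz : br y z ∈ J) (hzx : br z x ∈ J) {P P' : Q}
    (hP : P ∈ Subring.closure (κ ∪ {x, y, z})) (hP' : P' ∈ Subring.closure (κ ∪ {x, y, z})) :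
    br P P' ∈ J := by
  have hyx : br y x ∈ J := by rw [h.skew]; exact J.neg_mem hxy
  have hzy : br z y ∈ J := by rw [h.skew]; exact J.neg_mem hyz
  have hxz : br x z ∈ J := by rw [h.skew]; exact J.neg_mem hzx
  have h0 : ∀ a, br a a ∈ J := fun a => by rw [h.alt]; exact J.zero_mem
  have h1 : ∀ s, br s x ∈ J → br s y ∈ J → br s z ∈ J → br s P' ∈ J := by
    intro s h1 h2 h3
    rw [h.skew]
    refine J.neg_mem (bd_closure_left h κ hκ J s ?_ ?_ ?_ hP')
    · rw [h.skew]; exact J.neg_mem h1
    · rw [h.skew]; exact J.neg_mem h2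
    · rw [h.skew]; exact J.neg_mem h3
  exact bd_closure_left h κ hκ J P' (h1 x (h0 x) hxy hxz) (h1 y hyx (h0 y) hyz)
    (h1 z hzx hzy (h0 z)) hP

/-- a biderivation maps `M ^ (n + 1)` to `M ^ n` -/
theorem bd_pow (M : Ideal Q) (n : ℕ) : ∀ a ∈ M ^ (n + 1), ∀ s, br a s ∈ M ^ n := by
  induction n with
  | zero =>
    intro a _ s
    rw [pow_zero, Ideal.one_eq_top]
    trivial
  | succ n ih =>
    intro a ha s
    rw [pow_succ] at ha
    refine Submodule.mul_induction_on ha ?_ ?_
    · intro b hb c hc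
      rw [h.mul_left]
      refine Ideal.add_mem _ (Ideal.mul_mem_right _ _ hb) ?_
      rw [pow_succ, mul_comm c]
      exact Ideal.mul_mem_mul (ih b hb s) hc
    · intro b c hb hc
      rw [h.add_left]
      exact Ideal.add_mem _ hb hc

end bd

/-- All brackets of the complete ring lie in the ideal of the brackets of the generators. -/
theorem bd_mem {Q : Type} [CommRing Q] [IsLocalRing Q] [IsNoetherianRing Q] {br : Q → Q → Q}
    (h : IsBD br) (κ : ℂ →+* Q) (hκ0 : ∀ c s, br (κ c) s = 0)
    (hκ : ∀ r : Q, ∃ c : ℂ, r - κ c ∈ maximalIdeal Q)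
    {x y z : Q} (hgen : maximalIdeal Q = Ideal.span {x, y, z}) (J : Ideal Q)
    (hxy : br x y ∈ J) (hyz : br y z ∈ J) (hzx : br z x ∈ J) (r s : Q) : br r s ∈ J := by
  apply closed
  intro n
  obtain ⟨P, hP, hr⟩ := poly_approx κ hκ hgen (n + 1) r
  obtain ⟨P', hP', hs⟩ := poly_approx κ hκ hgen (n + 1) s
  have h1 : br r s = br P P' + (br (r - P) s + br P (s - P')) := by
    rw [bd_sub_left h, bd_sub_right h]
    ring
  rw [h1]
  refine Submodule.add_mem_sup ?_ (Ideal.add_mem _ (bd_pow h _ n _ hr s) ?_)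
  · refine bd_closure h _ ?_ J hxy hyz hzx hP hP'
    rintro _ ⟨c, rfl⟩ s
    exact hκ0 c s
  · rw [h.skew]
    exact Ideal.neg_mem_iff _ |>.2 (bd_pow h _ n _ hs P)

end H93

end LCY
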