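import Pool.Agent.Helper93.LCY.Val4

/-!
The bracket of a 2-form and divisorial valuations: BR8, BR9, B0, B2.
-/

open Polynomial

namespace LCY

variable {L : Type} [Field L] [Algebra ℂ L]

namespace Bracket

variable (ω : Bracket L)

/-- The derivation `c * br · b`. -/
noncomputable def der93 (b : L) : Derivation ℂ L L :=
  Derivation.mk' { toFun := fun a => ω.br a b
                   map_add' := fun x y => ω.add_left x y b
                   map_smul' := fun r x => by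
                    rw [Algebra.smul_def, ω.mul_left, ω.const_left, mul_zero, add_zero,
                      RingHom.id_apply, Algebra.smul_def] } fun x y => by
    change ω.br (x * y) b = x • ω.br y b + y • ω.br x b
    rw [ω.mul_left, smul_eq_mul, smul_eq_mul]

theorem der_apply93 (a b : L) : ω.der93 b a = ω.br a b := rfl

theorem zpow_left93 {a : L} (n : ℤ) (c : L) : ω.br (a ^ n) c = n * a ^ (n - 1) * ω.br a c := by
  have h := (ω.der93 c).leibniz_zpow a n
  simp only [der_apply93, smul_eq_mul, zsmul_eq_mul] at h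
  rw [h]
  ring

theorem zpow_right93 {a : L} (n : ℤ) (c : L) : ω.br c (a ^ n) = n * a ^ (n - 1) * ω.br c a := by
  rw [ω.skew, ω.zpow_left93, ω.skew a c]
  ring

end Bracket

namespace DVal

variable (v : DVal L)

theorem int_div_of_le93 {a c : L} (hc : c ≠ 0) (h : a ≠ 0 → v.v c ≤ v.v a) : v.Int (c⁻¹ * a) := by
  by_cases ha : a = 0
  · left
    rw [ha, mul_zero]
  right
  rw [v.map_mul _ _ (inv_ne_zero hc) ha, v.map_inv hc]
  have := h ha
  omega

theorem le_of_int_div93 {a c : L} (hc : c ≠ 0) (ha : a ≠ 0) (h : v.Int (c⁻¹ * a)) :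
    v.v c ≤ v.v a := by
  have h1 := h.resolve_left (mul_ne_zero (inv_ne_zero hc) ha)
  rw [v.map_mul _ _ (inv_ne_zero hc) ha, v.map_inv hc] at h1
  omega

/-- The bracket of `t` and `π` is not zero. -/
theorem br_ne_zero (hL : Surf L) (ω : Bracket L) {t π : L} (ht : ResTr v.v t) (hπ0 : π ≠ 0)
    (hπ : v.v π = 1) : ω.br t π ≠ 0 := by
  intro h
  obtain ⟨a, b, hab⟩ := ω.ne_zero
  have h1 : ∀ x, ω.br x t = 0 := fun x =>
    v.der_zero hL (D := ω.der93 t) ht hπ0 hπ (ω.alt t)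
      (by rw [ω.der_apply93, ω.skew, h, neg_zero]) x
  have h2 : ∀ x, ω.br x π = 0 := fun x =>
    v.der_zero hL (D := ω.der93 π) ht hπ0 hπ h (ω.alt π) x
  apply hab
  exact v.der_zero hL (D := ω.der93 b) ht hπ0 hπ
    (by rw [ω.der_apply93, ω.skew, h1, neg_zero]) (by rw [ω.der_apply93, ω.skew, h2, neg_zero]) a

/-- F1 for the bracket: brackets of integral elements are integral multiples of the bracket
of `t` and `π`. -/
theorem br_int (hL : Surf L) (ω : Bracket L) {t π : L} (ht : ResTr v.v t) (hπ0 : π ≠ 0)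
    (hπ : v.v π = 1) {a b : L} (ha : v.Int a) (hb : v.Int b) :
    v.Int ((ω.br t π)⁻¹ * ω.br a b) := by
  have hc := v.br_ne_zero hL ω ht hπ0 hπ
  have hti : v.Int t := by
    have h := ht X X_ne_zero
    rw [aeval_X] at h
    exact Or.inr h.2.ge
  have hπi : v.Int π := Or.inr (by omega)
  have h1 : ∀ x, v.Int x → v.Int ((ω.br t π)⁻¹ * ω.br x π) := fun x hx =>
    v.der_int hL (D := (ω.br t π)⁻¹ • ω.der93 π) ht hπ0 hπ
      (by
        change v.Int ((ω.br t π)⁻¹ * ω.br t π)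
        rw [inv_mul_cancel₀ hc]
        exact v.int_one)
      (by
        change v.Int ((ω.br t π)⁻¹ * ω.br π π)
        rw [ω.alt, mul_zero]
        exact v.int_zero) hx
  have h2 : ∀ x, v.Int x → v.Int ((ω.br t π)⁻¹ * ω.br x t) := fun x hx =>
    v.der_int hL (D := (ω.br t π)⁻¹ • ω.der93 t) ht hπ0 hπ
      (by
        change v.Int ((ω.br t π)⁻¹ * ω.br t t)
        rw [ω.alt, mul_zero]
        exact v.int_zero)
      (by
        change v.Int ((ω.br t π)⁻¹ * ω.br π t)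
        rw [ω.skew π t, mul_neg, inv_mul_cancel₀ hc]
        exact v.int_neg v.int_one) hx
  exact v.der_int hL (D := (ω.br t π)⁻¹ • ω.der93 b) ht hπ0 hπ
    (by
      change v.Int ((ω.br t π)⁻¹ * ω.br t b)
      rw [ω.skew t b, mul_neg]
      exact v.int_neg (h2 b hb))
    (by
      change v.Int ((ω.br t π)⁻¹ * ω.br π b)
      rw [ω.skew π b, mul_neg]
      exact v.int_neg (h1 b hb)) ha

/-- The value of the 2-form `ω` at `v`. -/
noncomputable def wt (v : DVal L) (ω : Bracket L) : ℤ :=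
  - v.v (ω.br (Classical.choose v.exists_res) (Classical.choose v.exists_unif))

/-- BR8 -/
theorem br_val (hL : Surf L) (ω : Bracket L) {t π : L} (ht : ResTr v.v t) (hπ0 : π ≠ 0)
    (hπ : v.v π = 1) : ω.br t π ≠ 0 ∧ v.v (ω.br t π) = - v.wt ω := by
  have ht' := Classical.choose_spec v.exists_res
  have hπ' := Classical.choose_spec v.exists_unif
  set t' := Classical.choose v.exists_res with ht'def
  set π' := Classical.choose v.exists_unif with hπ'def
  have hti : v.Int t := by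
    have h := ht X X_ne_zero
    rw [aeval_X] at h
    exact Or.inr h.2.ge
  have hti' : v.Int t' := by
    have h := ht' X X_ne_zero
    rw [aeval_X] at h
    exact Or.inr h.2.ge
  have hπi : v.Int π := Or.inr (by omega)
  have hπi' : v.Int π' := Or.inr (by omega)
  have h0 := v.br_ne_zero hL ω ht hπ0 hπ
  have h0' := v.br_ne_zero hL ω ht' hπ'.1 hπ'.2
  have h1 := v.le_of_int_div93 h0 h0' (v.br_int hL ω ht hπ0 hπ hti' hπi')
  have h2 := v.le_of_int_div93 h0' h0 (v.br_int hL ω ht' hπ'.1 hπ'.2 hti hπi)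
  refine ⟨h0, ?_⟩
  rw [wt, neg_neg]
  exact le_antisymm h1 h2

theorem wt_eq (hL : Surf L) (ω : Bracket L) {k : ℤ} (h : ω.Wt v k) : v.wt ω = k := by
  obtain ⟨t, π, ht, hπ0, hπ, _, hk⟩ := h
  have := (v.br_val hL ω ht hπ0 hπ).2
  omega

theorem Wt_wt (hL : Surf L) (ω : Bracket L) : ω.Wt v (v.wt ω) := by
  obtain ⟨t, ht⟩ := v.exists_res
  obtain ⟨π, hπ0, hπ⟩ := v.exists_unif
  obtain ⟨h1, h2⟩ := v.br_val hL ω ht hπ0 hπ
  exact ⟨t, π, ht, hπ0, hπ, h1, h2⟩

/-- B0 -/
theorem br_ge (hL : Surf L) (ω : Bracket L) {a b : L} (ha : v.Int a) (hb : v.Int b)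
    (hab : ω.br a b ≠ 0) : - v.wt ω ≤ v.v (ω.br a b) := by
  obtain ⟨t, ht⟩ := v.exists_res
  obtain ⟨π, hπ0, hπ⟩ := v.exists_unif
  obtain ⟨h1, h2⟩ := v.br_val hL ω ht hπ0 hπ
  rw [← h2]
  exact v.le_of_int_div93 h1 hab (v.br_int hL ω ht hπ0 hπ ha hb)

/-- factor out the uniformizer -/
theorem exists_fac93 {π : L} (hπ0 : π ≠ 0) (hπ : v.v π = 1) {a : L} (ha : a ≠ 0) :
    ∃ u : L, u ≠ 0 ∧ v.v u = 0 ∧ a = π ^ (v.v a) * u := by
  refine ⟨π ^ (- v.v a) * a, mul_ne_zero (zpow_ne_zero _ hπ0) ha, ?_, ?_⟩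
  · rw [v.map_mul _ _ (zpow_ne_zero _ hπ0) ha, v.map_zpow hπ0, hπ]
    ring
  · rw [← mul_assoc, ← zpow_add₀ hπ0, add_neg_cancel, zpow_zero, one_mul]

/-- BR9 = (B) -/
theorem br_ge' (hL : Surf L) (ω : Bracket L) {a b : L} (ha : a ≠ 0) (hb : b ≠ 0)
    (hab : ω.br a b ≠ 0) : v.v a + v.v b - 1 - v.wt ω ≤ v.v (ω.br a b) := by
  obtain ⟨t, ht⟩ := v.exists_res
  obtain ⟨π, hπ0, hπ⟩ := v.exists_unif
  obtain ⟨h1, h2⟩ := v.br_val hL ω ht hπ0 hπ
  have hπi : v.Int π := Or.inr (by omega)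
  obtain ⟨u, hu0, hu, hau⟩ := v.exists_fac93 hπ0 hπ ha
  obtain ⟨w, hw0, hw, hbw⟩ := v.exists_fac93 hπ0 hπ hb
  set m := v.v a with hm
  set n := v.v b with hn
  have hui : v.Int u := Or.inr hu.ge
  have hwi : v.Int w := Or.inr hw.ge
  have key : ω.br a b = π ^ (m + n - 1) * (m * u * ω.br π w + n * w * ω.br u π +
      π * ω.br u w) := by
    have e1 : π ^ m = π ^ (m - 1) * π := by
      rw [← zpow_add_one₀ hπ0, sub_add_cancel]
    have e2 : π ^ n = π ^ (n - 1) * π := by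
      rw [← zpow_add_one₀ hπ0, sub_add_cancel]
    have e3 : π ^ (m + n - 1) = π ^ (m - 1) * π ^ (n - 1) * π := by
      rw [← zpow_add₀ hπ0, ← zpow_add_one₀ hπ0]
      congr 1
      ring
    rw [hau, hbw, ω.mul_left, ω.mul_right, ω.mul_right, ω.zpow_left93, ω.zpow_left93, ω.zpow_right93,
      ω.zpow_right93, ω.alt, e1, e2, e3]
    ring
  have hz : ∀ z : ℤ, v.Int (z : L) := by
    intro z
    have h := v.int_const (z : ℂ)
    rwa [map_intCast] at h
  have hc : v.Int ((ω.br t π)⁻¹ * (m * u * ω.br π w + n * w * ω.br u π + π * ω.br u w)) := by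
    have h3 : (ω.br t π)⁻¹ * (m * u * ω.br π w + n * w * ω.br u π + π * ω.br u w) =
        m * u * ((ω.br t π)⁻¹ * ω.br π w) + n * w * ((ω.br t π)⁻¹ * ω.br u π) +
          π * ((ω.br t π)⁻¹ * ω.br u w) := by ring
    rw [h3]
    exact v.int_add (v.int_add (v.int_mul (v.int_mul (hz m) hui)
      (v.br_int hL ω ht hπ0 hπ hπi hwi)) (v.int_mul (v.int_mul (hz n) hwi)
      (v.br_int hL ω ht hπ0 hπ hui hπi))) (v.int_mul hπi (v.br_int hL ω ht hπ0 hπ hui hwi))
  have hne : m * u * ω.br π w + n * w * ω.br u π + π * ω.br u w ≠ 0 := by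
    intro h
    rw [h, mul_zero] at key
    exact hab key
  have h4 := v.le_of_int_div93 h1 hne hc
  rw [key, v.map_mul _ _ (zpow_ne_zero _ hπ0) hne, v.map_zpow hπ0, hπ]
  omega

end DVal

end LCY
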