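import Pool.Agent.Helper93.LCY.DVa
import Pool.Agent.Helper93.LCY.Compl
import Pool.Agent.Helper93.LCY.Val5

/-!
Du Val points: the core of the argument, for a local subalgebra of the function field.
-/

open IsLocalRing

namespace LCY

namespace H93

section setup

variable {L : Type} [Field L] [Algebra ℂ L] (O : Subalgebra ℂ L)

/-- The bracket on a subalgebra closed under it. -/
def brO (B : Bracket L) (hbr : ∀ a ∈ O, ∀ b ∈ O, B.br a b ∈ O) (a b : O) : O :=
  ⟨B.br a b, hbr a a.2 b b.2⟩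

theorem isBD_brO (B : Bracket L) (hbr : ∀ a ∈ O, ∀ b ∈ O, B.br a b ∈ O) :
    IsBD (brO O B hbr) where
  add_left a b c := Subtype.ext (B.add_left a b c)
  mul_left a b c := Subtype.ext (B.mul_left a b c)
  alt a := Subtype.ext (B.alt a)
  skew a b := Subtype.ext (B.skew a b)

open Classical in
/-- The valuation as a function with values in the extended natural numbers. -/
noncomputable def wv (v : DVal L) (a : O) : ℕ∞ :=
  if (a : L) = 0 then ⊤ else ((v.v (a : L)).toNat : ℕ∞)

theorem wv_zero (v : DVal L) : wv O v 0 = ⊤ := by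
  unfold wv
  rw [if_pos]
  rfl

theorem wv_of_ne (v : DVal L) {a : O} (ha : (a : L) ≠ 0) :
    wv O v a = ((v.v (a : L)).toNat : ℕ∞) := if_neg ha

theorem wv_ne_top (v : DVal L) {a : O} (ha : (a : L) ≠ 0) : wv O v a ≠ ⊤ := by
  rw [wv_of_ne O v ha]
  exact ENat.natCast_ne_top _

theorem wv_one (v : DVal L) : wv O v 1 = 0 := by
  have h : ((1 : O) : L) ≠ 0 := one_ne_zero
  rw [wv_of_ne O v h]
  have h1 : v.v ((1 : O) : L) = 0 := v.map_one
  rw [h1]
  rfl

variable (v : DVal L) (hint : ∀ a ∈ O, v.Int a)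

include hint

theorem wv_mul (a b : O) : wv O v (a * b) = wv O v a + wv O v b := by
  by_cases ha : (a : L) = 0
  · have h1 : a = 0 := Subtype.ext ha
    rw [h1, zero_mul, wv_zero, top_add]
  by_cases hb : (b : L) = 0
  · have h1 : b = 0 := Subtype.ext hb
    rw [h1, mul_zero, wv_zero, add_top]
  have hab : ((a * b : O) : L) ≠ 0 := mul_ne_zero ha hb
  rw [wv_of_ne O v ha, wv_of_ne O v hb, wv_of_ne O v hab]
  have h1 : v.v ((a * b : O) : L) = v.v (a : L) + v.v (b : L) := v.map_mul _ _ ha hb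
  have h2 := (hint a a.2).resolve_left ha
  have h3 := (hint b b.2).resolve_left hb
  rw [h1, Int.toNat_add h2 h3]
  push_cast
  rfl

theorem wv_add (a b : O) : min (wv O v a) (wv O v b) ≤ wv O v (a + b) := by
  by_cases ha : (a : L) = 0
  · have h1 : a = 0 := Subtype.ext ha
    rw [h1, zero_add]
    exact min_le_right _ _
  by_cases hb : (b : L) = 0
  · have h1 : b = 0 := Subtype.ext hb
    rw [h1, add_zero]
    exact min_le_left _ _
  by_cases hab : ((a + b : O) : L) = 0
  · have h1 : a + b = 0 := Subtype.ext hab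
    rw [h1, wv_zero]
    exact le_top
  rw [wv_of_ne O v ha, wv_of_ne O v hb, wv_of_ne O v hab]
  have h1 := v.map_add _ _ ha hb hab
  have h2 := (hint a a.2).resolve_left ha
  have h3 := (hint b b.2).resolve_left hb
  have h5 : v.v ((a + b : O) : L) = v.v ((a : L) + (b : L)) := rfl
  rw [h5]
  rcases min_choice (v.v (a : L)) (v.v (b : L)) with h6 | h6 <;> rw [h6] at h1
  · have h7 : (v.v (a : L)).toNat ≤ (v.v ((a : L) + (b : L))).toNat := by omega
    exact (min_le_left _ _).trans (by exact_mod_cast h7)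
  · have h7 : (v.v (b : L)).toNat ≤ (v.v ((a : L) + (b : L))).toNat := by omega
    exact (min_le_right _ _).trans (by exact_mod_cast h7)

theorem wv_br (B : Bracket L) (hbr : ∀ a ∈ O, ∀ b ∈ O, B.br a b ∈ O) (j : ℕ)
    (hB : ∀ a b, a ≠ 0 → b ≠ 0 → B.br a b ≠ 0 → v.v a + v.v b + j ≤ v.v (B.br a b)) (a b : O) :
    wv O v a + wv O v b + j ≤ wv O v (brO O B hbr a b) := by
  by_cases hab : B.br (a : L) (b : L) = 0
  · have h1 : brO O B hbr a b = 0 := Subtype.ext hab
    rw [h1, wv_zero]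
    exact le_top
  have ha : (a : L) ≠ 0 := by
    intro h
    rw [h] at hab
    exact hab (B.zero_left _)
  have hb : (b : L) ≠ 0 := by
    intro h
    rw [h] at hab
    exact hab (B.zero_right _)
  have hab' : ((brO O B hbr a b : O) : L) ≠ 0 := hab
  rw [wv_of_ne O v ha, wv_of_ne O v hb, wv_of_ne O v hab']
  have h1 := hB _ _ ha hb hab
  have h2 := (hint a a.2).resolve_left ha
  have h3 := (hint b b.2).resolve_left hb
  have h4 : (v.v (a : L)).toNat + (v.v (b : L)).toNat + j ≤
      (v.v ((brO O B hbr a b : O) : L)).toNat := by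
    have h5 : v.v ((brO O B hbr a b : O) : L) = v.v (B.br (a : L) (b : L)) := rfl
    rw [h5]
    omega
  exact_mod_cast h4

end setup

/-- passage of the inequality for brackets to the completion -/
theorem vh_br {O Q : Type} [CommRing O] [CommRing Q] [IsLocalRing O] [IsLocalRing Q]
    {ι : O →+* Q} (hι : Dense ι) {w : O → ℕ∞} {vh : Q → ℕ∞} {br : O → O → O} {brQ : Q → Q → Q}
    (hadd : ∀ a b, min (vh a) (vh b) ≤ vh (a + b)) (hneg : ∀ a, vh (-a) = vh a)
    (hw : ∀ a, vh (ι a) = w a) (hM : ∀ (n : ℕ), ∀ r ∈ maximalIdeal Q ^ n, (n : ℕ∞) ≤ vh r)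
    (hbr : ∀ (n : ℕ) (r s : Q) (a b : O),
      r - ι a ∈ maximalIdeal Q ^ (n + 1) → s - ι b ∈ maximalIdeal Q ^ (n + 1) →
      brQ r s - ι (br a b) ∈ maximalIdeal Q ^ n) (j : ℕ)
    (hB : ∀ a b, w a + w b + j ≤ w (br a b)) (r s : Q) : vh r + vh s + j ≤ vh (brQ r s) := by
  by_contra hc
  rw [not_le] at hc
  have hfin : vh (brQ r s) ≠ ⊤ := ne_top_of_lt hc
  obtain ⟨n, hn⟩ := ENat.ne_top_iff_exists.1 hfin
  obtain ⟨a, ha⟩ := hι.approx (n + 2) r
  obtain ⟨b, hb⟩ := hι.approx (n + 2) s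
  have h1 := hbr (n + 1) r s a b ha hb
  have h2 := hM _ _ h1
  have hsub : ∀ p q : Q, min (vh p) (vh q) ≤ vh (p - q) := fun p q => by
    rw [sub_eq_add_neg, ← hneg q]
    exact hadd _ _
  -- value of the bracket of approximations
  have h3 : w (br a b) ≤ n := by
    have h4 := hadd (brQ r s - ι (br a b)) (ι (br a b))
    rw [sub_add_cancel, hw, ← hn] at h4
    by_contra h5
    rw [not_le] at h5
    have h6 : ((n + 1 : ℕ) : ℕ∞) ≤ w (br a b) := by
      have := Order.add_one_le_of_lt h5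
      exact_mod_cast this
    have h7 : ((n + 1 : ℕ) : ℕ∞) ≤ (n : ℕ∞) := (le_min h2 h6).trans h4
    have h8 : n + 1 ≤ n := by exact_mod_cast h7
    omega
  have h4 : min (vh r) ((n + 2 : ℕ) : ℕ∞) ≤ w a := by
    have h5 := hsub r (r - ι a)
    rw [sub_sub_cancel, hw] at h5
    exact (min_le_min le_rfl (hM _ _ ha)).trans h5
  have h5 : min (vh s) ((n + 2 : ℕ) : ℕ∞) ≤ w b := by
    have h5 := hsub s (s - ι b)
    rw [sub_sub_cancel, hw] at h5
    exact (min_le_min le_rfl (hM _ _ hb)).trans h5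
  have h6 : w a + w b + j ≤ n := (hB a b).trans h3
  have hwa : w a ≤ n := (le_self_add.trans le_self_add).trans h6
  have hwb : w b ≤ n := (le_add_self.trans le_self_add).trans h6
  have hn2 : ¬ ((n + 2 : ℕ) : ℕ∞) ≤ n := by
    intro h
    have : n + 2 ≤ n := by exact_mod_cast h
    omega
  have h7 : vh r ≤ w a := by
    rcases min_choice (vh r) ((n + 2 : ℕ) : ℕ∞) with h | h <;> rw [h] at h4
    · exact h4
    · exact absurd (h4.trans hwa) hn2
  have h8 : vh s ≤ w b := by
    rcases min_choice (vh s) ((n + 2 : ℕ) : ℕ∞) with h | h <;> rw [h] at h5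
    · exact h5
    · exact absurd (h5.trans hwb) hn2
  have h9 : vh r + vh s + j ≤ n := (add_le_add (add_le_add h7 h8) le_rfl).trans h6
  rw [← hn] at hc
  exact absurd hc (not_lt.2 h9)

end H93

end LCY
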