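import Pool.Agent.Helper93.LCY.DVb

/-!
Du Val points: the unit and the core theorem.
-/

open IsLocalRing

namespace LCY

namespace H93

section dense

variable {O Q : Type} [CommRing O] [CommRing Q] [IsLocalRing O] [IsLocalRing Q] {ι : O →+* Q}

/-- Brackets of elements of `O` lie in every ideal that contains all brackets of `Q`. -/
theorem br_mem_ideal [IsNoetherianRing Q] {br : O → O → O} {brQ : Q → Q → Q}
    (hbr : ∀ (n : ℕ) (r s : Q) (a b : O),
      r - ι a ∈ maximalIdeal Q ^ (n + 1) → s - ι b ∈ maximalIdeal Q ^ (n + 1) →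
      brQ r s - ι (br a b) ∈ maximalIdeal Q ^ n) (J : Ideal Q) (a b : O)
    (h : brQ (ι a) (ι b) ∈ J) : ι (br a b) ∈ J := by
  apply closed
  intro n
  have h1 := hbr n (ι a) (ι b) a b (by rw [sub_self]; exact Ideal.zero_mem _)
    (by rw [sub_self]; exact Ideal.zero_mem _)
  have h2 : ι (br a b) = brQ (ι a) (ι b) + -(brQ (ι a) (ι b) - ι (br a b)) := by ring
  rw [h2]
  exact Submodule.add_mem_sup h (Ideal.neg_mem_iff _ |>.2 h1)

/-- Brackets of `Q` lie in every ideal that contains all brackets of `O`. -/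
theorem brQ_mem_ideal [IsNoetherianRing Q] (hι : Dense ι) {br : O → O → O} {brQ : Q → Q → Q}
    (hbr : ∀ (n : ℕ) (r s : Q) (a b : O),
      r - ι a ∈ maximalIdeal Q ^ (n + 1) → s - ι b ∈ maximalIdeal Q ^ (n + 1) →
      brQ r s - ι (br a b) ∈ maximalIdeal Q ^ n) (J : Ideal Q)
    (h : ∀ a b, ι (br a b) ∈ J) (r s : Q) : brQ r s ∈ J := by
  apply closed
  intro n
  obtain ⟨a, ha⟩ := hι.approx (n + 1) r
  obtain ⟨b, hb⟩ := hι.approx (n + 1) s
  have h1 := hbr n r s a b ha hb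
  have h2 : brQ r s = ι (br a b) + (brQ r s - ι (br a b)) := by ring
  rw [h2]
  exact Submodule.add_mem_sup (h a b) h1

/-- If a power of the maximal ideal of `O` becomes divisible by a non-unit `ε` of `Q`, then it is
divisible by a non-unit of `O`. -/
theorem exists_div [IsNoetherianRing O] (hι : Dense ι) {N : ℕ} {ε : Q} (hε : ε ∈ maximalIdeal Q)
    (h : ∀ a ∈ maximalIdeal O ^ N, ι a ∈ Ideal.span {ε}) :
    ∃ e ∈ maximalIdeal O, maximalIdeal O ^ N ≤ Ideal.span {e} := by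
  obtain ⟨e, he⟩ := hι.approx (N + 1) ε
  have heM : ι e ∈ maximalIdeal Q := by
    have h1 : ι e = ε - (ε - ι e) := by ring
    rw [h1]
    exact Ideal.sub_mem _ hε (Ideal.pow_le_self (Nat.succ_ne_zero N) he)
  have hem : e ∈ maximalIdeal O := by
    have h1 := (hι.mem 1 e).1 (by rwa [pow_one])
    rwa [pow_one] at h1
  refine ⟨e, hem, ?_⟩
  apply Submodule.le_of_le_smul_of_le_jacobson_bot (I := maximalIdeal O)
    (Ideal.fg_of_isNoetherianRing _) (IsLocalRing.maximalIdeal_le_jacobson ⊥)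
  intro a ha
  obtain ⟨r, hr⟩ := Ideal.mem_span_singleton'.1 (h a ha)
  obtain ⟨b, hb⟩ := hι.approx (N + 1) r
  have h1 : ι (a - e * b) ∈ maximalIdeal Q ^ (N + 1) := by
    have h2 : ι (a - e * b) = (r - ι b) * ε + ι b * (ε - ι e) := by
      rw [map_sub, map_mul, ← hr]
      ring
    rw [h2]
    exact Ideal.add_mem _ (Ideal.mul_mem_right _ _ hb) (Ideal.mul_mem_left _ _ he)
  have h3 := (hι.mem _ _).1 h1
  have h4 : a = e * b + (a - e * b) := by ring
  rw [h4]
  refine Submodule.add_mem_sup (Ideal.mul_mem_right _ _ (Ideal.mem_span_singleton_self e)) ?_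
  rw [smul_eq_mul, ← pow_succ']
  exact h3

end dense

/-- the data attached to a Du Val point -/
structure DVData {L : Type} [Field L] [Algebra ℂ L] (O : Subalgebra ℂ L) [IsLocalRing O]
    (br : O → O → O) where
  /-- the complete ring -/
  Q : Type
  [ringQ : CommRing Q]
  [locQ : IsLocalRing Q]
  (ι : O →+* Q)
  (dense : Dense ι)
  (x y z gy gz : Q)
  (out : ADEOut Q x y z gy gz)
  (brQ : Q → Q → Q)
  (bd : IsBD brQ)
  (brQ_spec : ∀ (n : ℕ) (r s : Q) (a b : O),
    r - ι a ∈ maximalIdeal Q ^ (n + 1) → s - ι b ∈ maximalIdeal Q ^ (n + 1) →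
    brQ r s - ι (br a b) ∈ maximalIdeal Q ^ n)
  (ε : Q)
  (hA : brQ y z = 2 * x * ε)
  (hB : brQ z x = gy * ε)
  (hC : brQ x y = gz * ε)
  (const : ∀ r : Q, ∃ c : ℂ, r - ι (algebraMap ℂ O c) ∈ maximalIdeal Q)
  (ε_mem : ∀ r s, brQ r s ∈ Ideal.span {ε})
  (br_mem : ∀ a b, ι (br a b) ∈ Ideal.span {ε})

attribute [instance] DVData.ringQ DVData.locQ

theorem exists_dvData (hADE : ST_ADE) (hLIM : ST_LIM) {L : Type} [Field L] [Algebra ℂ L]
    (O : Subalgebra ℂ L) [IsLocalRing O] [IsNoetherianRing O] (br : O → O → O) (hbr : IsBD br)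
    (hc0 : ∀ (c : ℂ) (a : O), br (algebraMap ℂ O c) a = 0)
    (hconst : ∀ a : O, ∃ c : ℂ, a - algebraMap ℂ O c ∈ maximalIdeal O)
    {f : PS} (hf : IsADE f)
    (he : Nonempty (AdicCompletion (maximalIdeal O) O ≃+* (PS ⧸ Ideal.span {f}))) :
    Nonempty (DVData O br) := by
  obtain ⟨hloc, gy, gz, hout⟩ := hADE f hf
  obtain ⟨ι, hι⟩ := st_compl O (PS ⧸ Ideal.span {f}) he
  obtain ⟨brQ, hbd, hspec⟩ := hLIM O (PS ⧸ Ideal.span {f}) ι hι br hbr
  have hN := hout.noeth
  set x : PS ⧸ Ideal.span {f} := Ideal.Quotient.mk _ (MvPowerSeries.X 0) with hx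
  set y : PS ⧸ Ideal.span {f} := Ideal.Quotient.mk _ (MvPowerSeries.X 1) with hy
  set z : PS ⧸ Ideal.span {f} := Ideal.Quotient.mk _ (MvPowerSeries.X 2) with hz
  have hconstQ : ∀ r : PS ⧸ Ideal.span {f}, ∃ c : ℂ,
      r - ι (algebraMap ℂ O c) ∈ maximalIdeal (PS ⧸ Ideal.span {f}) := by
    intro r
    obtain ⟨a, ha⟩ := hι.approx 1 r
    obtain ⟨c, hc⟩ := hconst a
    refine ⟨c, ?_⟩
    have h1 := (hι.mem 1 (a - algebraMap ℂ O c)).2 (by rwa [pow_one])
    rw [pow_one] at h1 ha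
    have h2 : r - ι (algebraMap ℂ O c) = (r - ι a) + ι (a - algebraMap ℂ O c) := by
      rw [map_sub]
      ring
    rw [h2]
    exact Ideal.add_mem _ ha h1
  have e1 := hout.der (fun a => brQ a y) (fun a b => hbd.add_left a b y)
    (fun a b => hbd.mul_left a b y)
  have e2 := hout.der (fun a => brQ a z) (fun a b => hbd.add_left a b z)
    (fun a b => hbd.mul_left a b z)
  simp only [hbd.alt] at e1 e2
  have e1' : 2 * x * brQ x y = gz * brQ y z := by
    rw [hbd.skew y z]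
    linear_combination e1
  have e2' : 2 * x * brQ z x = gy * brQ y z := by
    rw [hbd.skew z x]
    linear_combination -e2
  obtain ⟨ε, hA, hB, hC⟩ := hout.syz (brQ y z) (brQ z x) (brQ x y) e1' e2'
  have hmem : ∀ w : PS ⧸ Ideal.span {f}, w * ε ∈ Ideal.span {ε} := fun w =>
    Ideal.mul_mem_left _ _ (Ideal.mem_span_singleton_self ε)
  have hκ0 : ∀ (c : ℂ) (s : PS ⧸ Ideal.span {f}),
      brQ ((ι.comp (algebraMap ℂ O)) c) s = 0 := by
    intro c s
    have h1 : brQ (ι (algebraMap ℂ O c)) s ∈ (⊥ : Ideal (PS ⧸ Ideal.span {f})) := by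
      apply closed
      intro n
      obtain ⟨b, hb⟩ := hι.approx (n + 1) s
      have h2 := hspec n (ι (algebraMap ℂ O c)) s (algebraMap ℂ O c) b
        (by rw [sub_self]; exact Ideal.zero_mem _) hb
      rw [hc0, map_zero, sub_zero] at h2
      exact Submodule.mem_sup_right h2
    exact (Ideal.mem_bot).1 h1
  have hεmem : ∀ r s, brQ r s ∈ Ideal.span {ε} := by
    intro r s
    refine bd_mem hbd (ι.comp (algebraMap ℂ O)) hκ0 hconstQ hout.gen (Ideal.span {ε}) ?_ ?_ ?_ r s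
    · rw [hC]
      exact hmem _
    · rw [hA]
      exact hmem _
    · rw [hB]
      exact hmem _
  exact ⟨{ Q := PS ⧸ Ideal.span {f}, ι := ι, dense := hι, x := x, y := y, z := z, gy := gy,
           gz := gz, out := hout, brQ := brQ, bd := hbd, brQ_spec := hspec, ε := ε, hA := hA,
           hB := hB, hC := hC, const := hconstQ, ε_mem := hεmem,
           br_mem := fun a b => br_mem_ideal hspec _ a b (hεmem _ _) }⟩

end H93

end LCY
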