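import Pool.Agent.Helper93.LCY.DVc

/-!
Du Val points off the boundary: the core theorem.
-/

open IsLocalRing

namespace LCY

namespace H93

/-- the value of the completion on natural numbers and signs -/
theorem vh_neg_one {Q : Type} [CommRing Q] {vh : Q → ℕ∞} (hmul : ∀ a b, vh (a * b) = vh a + vh b)
    (h1 : vh 1 = 0) : vh (-1) = 0 := by
  have h := hmul (-1) (-1)
  rw [neg_mul_neg, one_mul, h1] at h
  exact (add_eq_zero.1 h.symm).1

theorem vh_neg {Q : Type} [CommRing Q] {vh : Q → ℕ∞} (hmul : ∀ a b, vh (a * b) = vh a + vh b)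
    (h1 : vh 1 = 0) (a : Q) : vh (-a) = vh a := by
  rw [← neg_one_mul, hmul, vh_neg_one hmul h1, zero_add]

theorem vh_unit {Q : Type} [CommRing Q] {vh : Q → ℕ∞} (hmul : ∀ a b, vh (a * b) = vh a + vh b)
    (h1 : vh 1 = 0) {u : Q} (hu : IsUnit u) : vh u = 0 := by
  obtain ⟨w, hw⟩ := hu.exists_right_inv
  have h := hmul u w
  rw [hw, h1] at h
  exact (add_eq_zero.1 h.symm).1

theorem dv0_core (hADE : ST_ADE) (hLIM : ST_LIM) (hVH : ST_VH) {L : Type} [Field L] [Algebra ℂ L]
    (O : Subalgebra ℂ L) [IsLocalRing O] [IsNoetherianRing O] (B : Bracket L) (v : DVal L) (k : ℤ)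
    (hbr : ∀ a ∈ O, ∀ b ∈ O, B.br a b ∈ O)
    (hB : ∀ a b, a ≠ 0 → b ≠ 0 → B.br a b ≠ 0 → v.v a + v.v b - 1 - k ≤ v.v (B.br a b))
    (hint : ∀ a ∈ O, v.Int a) (hpos : ∀ a : O, a ∈ maximalIdeal O → v.Pos (a : L))
    (hconst : ∀ a : O, ∃ c : ℂ, a - algebraMap ℂ O c ∈ maximalIdeal O)
    (hprim : ∃ N : ℕ, maximalIdeal O ^ N ≤ Ideal.span {c | ∃ a b : O, brO O B hbr a b = c})
    (hdim : ∀ e ∈ maximalIdeal O, ∀ N : ℕ, ¬ maximalIdeal O ^ N ≤ Ideal.span {e})
    (hm : maximalIdeal O ≠ ⊥) {f : PS} (hf : IsADE f)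
    (he : Nonempty (AdicCompletion (maximalIdeal O) O ≃+* (PS ⧸ Ideal.span {f}))) : 0 ≤ k := by
  by_contra hk
  obtain ⟨D⟩ := exists_dvData hADE hLIM O (brO O B hbr) (isBD_brO O B hbr)
    (fun c a => Subtype.ext (B.const_left c a)) hconst hf he
  have hw := hVH O D.Q D.ι D.dense (wv O v) (wv_mul O v hint) (wv_add O v hint) (by
    intro a ha
    by_cases h0 : (a : L) = 0
    · have h1 : a = 0 := Subtype.ext h0
      rw [h1, wv_zero]
      exact le_top
    rw [wv_of_ne O v h0]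
    have h2 := (hpos a ha).resolve_left h0
    have h3 : 1 ≤ (v.v (a : L)).toNat := by omega
    exact_mod_cast h3) (wv_zero O v) (wv_one O v)
  obtain ⟨vh, hmul, hadd, hι, hM, _⟩ := hw
  have h1 : vh 1 = 0 := by
    rw [← map_one D.ι, hι, wv_one]
  have hneg := vh_neg hmul h1
  have hnat : ∀ n : ℕ, n ≠ 0 → vh (n : D.Q) = 0 := by
    intro n hn
    rw [← map_natCast D.ι, hι]
    have h2 : ((n : O) : L) = algebraMap ℂ L n := by simp
    have h3 : ((n : O) : L) ≠ 0 := by
      rw [h2, Ne, map_eq_zero]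
      exact_mod_cast hn
    rw [wv_of_ne O v h3, h2, v.map_const _ (by exact_mod_cast hn)]
    rfl
  have hbrQ : ∀ r s, vh r + vh s ≤ vh (D.brQ r s) := by
    intro r s
    have h2 := vh_br D.dense hadd hneg hι hM D.brQ_spec 0 (fun a b => wv_br O v hint B hbr 0
      (fun a b ha hb hab => by
        have := hB a b ha hb hab
        push_cast
        omega) a b) r s
    simpa using h2
  -- `ε` is a unit
  have hu : IsUnit D.ε := by
    by_contra hε
    obtain ⟨N, hN⟩ := hprim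
    obtain ⟨e, he1, he2⟩ := exists_div (N := N) D.dense ((mem_maximalIdeal _).2 hε) (by
      intro a ha
      have h2 : Ideal.span {c | ∃ a b : O, brO O B hbr a b = c} ≤
          (Ideal.span {D.ε}).comap D.ι := by
        rw [Ideal.span_le]
        rintro _ ⟨a, b, rfl⟩
        exact D.br_mem a b
      exact h2 (hN ha))
    exact hdim e he1 N he2
  have hε := vh_unit hmul h1 hu
  have hgen := D.out.gen
  have hxM : D.x ∈ maximalIdeal D.Q := by rw [hgen]; exact Ideal.subset_span (by simp)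
  have hyM : D.y ∈ maximalIdeal D.Q := by rw [hgen]; exact Ideal.subset_span (by simp)
  have hzM : D.z ∈ maximalIdeal D.Q := by rw [hgen]; exact Ideal.subset_span (by simp)
  have hge1 : ∀ r ∈ maximalIdeal D.Q, 1 ≤ vh r := by
    intro r hr
    have := hM 1 r (by rwa [pow_one])
    exact_mod_cast this
  have h2 : vh (2 : D.Q) = 0 := by
    have := hnat 2 two_ne_zero
    exact_mod_cast this
  have hA := hbrQ D.y D.z
  have hBB := hbrQ D.z D.x
  have hC := hbrQ D.x D.y
  rw [D.hA, hmul, hmul, h2, hε, zero_add, add_zero] at hA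
  rw [D.hB, hmul, hε, add_zero] at hBB
  rw [D.hC, hmul, hε, add_zero] at hC
  obtain ⟨hx, hy, hz⟩ := D.out.val vh hmul hadd hnat (hge1 _ hxM) (hge1 _ hyM) (hge1 _ hzM)
    hA hBB hC
  -- all elements of the maximal ideal have infinite value
  obtain ⟨a, ha, ha0⟩ := Submodule.exists_mem_ne_zero_of_ne_bot hm
  have ha0' : (a : L) ≠ 0 := fun h => ha0 (Subtype.ext h)
  have hιa : D.ι a ∈ maximalIdeal D.Q := by
    have := (D.dense.mem 1 a).2 (by rwa [pow_one])
    rwa [pow_one] at this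
  rw [hgen, Ideal.mem_span_insert] at hιa
  obtain ⟨p, s, hs, hps⟩ := hιa
  rw [Ideal.mem_span_pair] at hs
  obtain ⟨q, r, hqr⟩ := hs
  have htop : vh (D.ι a) = ⊤ := by
    rw [hps, ← hqr, eq_top_iff]
    refine le_trans (le_min ?_ (le_trans (le_min ?_ ?_) (hadd _ _))) (hadd _ _)
    · rw [hmul, hx, add_top]
    · rw [hmul, hy, add_top]
    · rw [hmul, hz, add_top]
  rw [hι] at htop
  exact wv_ne_top O v ha0' htop

end H93

end LCY
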