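import Pool.Agent.Helper93.LCY.DVd
import Pool.Agent.Helper93.LCY.BR7Stmts
import Pool.Agent.Helper93.LCY.BR89
import Pool.Agent.Helper27.LCY.BR5
import Pool.Agent.Helper27.LCY.BR6

/-!
Geometry of the local ring of a point for the Du Val rows.
-/

open MvPolynomial IsLocalRing

namespace LCY

namespace H93

/-- The identity behind the localization of brackets. -/
theorem br_frac {L : Type} [Field L] [Algebra ℂ L] (B : Bracket L) (t π r r' : L) :
    r ^ 2 * r' ^ 2 * B.br t π = r * r' * B.br (r * t) (r' * π) - r * (r' * π) * B.br (r * t) r' -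
      (r * t) * r' * B.br r (r' * π) + (r * t) * (r' * π) * B.br r r' := by
  simp only [B.mul_left, B.mul_right]
  ring

/-- brackets of a local ring are not contained in a prime at which some bracket is a unit -/
theorem exists_br_notin {L : Type} [Field L] [Algebra ℂ L] (O : Subalgebra ℂ L) (B : Bracket L)
    (hbr : ∀ a ∈ O, ∀ b ∈ O, B.br a b ∈ O) (P : Ideal O) [hP : P.IsPrime] {t π : L}
    (ht : ∃ r : O, r ∉ P ∧ (r : L) * t ∈ O) (hπ : ∃ r : O, r ∉ P ∧ (r : L) * π ∈ O)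
    (hne : B.br t π ≠ 0) (hu : ∃ r : O, r ∉ P ∧ (r : L) * (B.br t π)⁻¹ ∈ O) :
    ∃ a b : O, brO O B hbr a b ∉ P := by
  by_contra hc
  push Not at hc
  obtain ⟨r, hr, hrt⟩ := ht
  obtain ⟨r', hr', hrπ⟩ := hπ
  obtain ⟨s, hs, hsu⟩ := hu
  have key : r ^ 2 * r' ^ 2 * s = (r * r' * brO O B hbr ⟨_, hrt⟩ ⟨_, hrπ⟩ -
      r * ⟨_, hrπ⟩ * brO O B hbr ⟨_, hrt⟩ r' - ⟨_, hrt⟩ * r' * brO O B hbr r ⟨_, hrπ⟩ +
      ⟨_, hrt⟩ * ⟨_, hrπ⟩ * brO O B hbr r r') * ⟨_, hsu⟩ := by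
    apply Subtype.ext
    have h1 := br_frac B t π (r : L) (r' : L)
    change (r : L) ^ 2 * (r' : L) ^ 2 * (s : L) = ((r : L) * (r' : L) *
      B.br ((r : L) * t) ((r' : L) * π) - (r : L) * ((r' : L) * π) * B.br ((r : L) * t) r' -
      ((r : L) * t) * r' * B.br r ((r' : L) * π) + ((r : L) * t) * ((r' : L) * π) * B.br r r') *
      ((s : L) * (B.br t π)⁻¹)
    rw [← h1]
    field_simp
  have h2 : r ^ 2 * r' ^ 2 * s ∈ P := by
    rw [key]
    refine P.mul_mem_right _ (P.add_mem (P.sub_mem (P.sub_mem ?_ ?_) ?_) ?_) <;>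
    exact P.mul_mem_left _ (hc _ _)
  rcases hP.mem_or_mem h2 with h3 | h3
  · rcases hP.mem_or_mem h3 with h4 | h4
    · exact hr (hP.mem_of_pow_mem 2 h4)
    · exact hr' (hP.mem_of_pow_mem 2 h4)
  · exact hs h3

variable {N : ℕ} (Y : Var N) (p : Fin (N + 1) → ℂ)

theorem loc_le (C : Var N) (hC : Y.I ≤ C.I) (hp : C.IsPt p) :
    Y.locRing (ptIdeal p) ≤ Y.locRing C.I := by
  obtain ⟨i, hi⟩ := exists_chart hp.1
  exact (Y.isFracOf_loc C.I (ptIdeal p) hC (C.le_ptIdeal p hp) hi).le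

theorem const_mem (hp : Y.IsPt p) [IsLocalRing (Y.locRing (ptIdeal p))]
    (a : Y.locRing (ptIdeal p)) :
    ∃ c : ℂ, a - algebraMap ℂ _ c ∈ maximalIdeal (Y.locRing (ptIdeal p)) := by
  obtain ⟨z, hz⟩ := Y.const_mod p hp a
  exact ⟨z, (mem_maximalIdeal _).2 hz⟩

/-- There is a curve through every point of a surface: a prime strictly between zero and the
maximal ideal. -/
theorem exists_prime93 (hY : Y.HasDim 2) (hp : Y.IsPt p)
    [IsLocalRing (Y.locRing (ptIdeal p))] :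
    ∃ Q : Ideal (Y.locRing (ptIdeal p)), Q.IsPrime ∧ Q ≠ ⊥ ∧
      Q ≠ maximalIdeal (Y.locRing (ptIdeal p)) := by
  by_contra hc
  push Not at hc
  have hmax : ∀ Q : Ideal (Y.locRing (ptIdeal p)), Q ≠ ⊥ → Q.IsPrime →
      Q = maximalIdeal (Y.locRing (ptIdeal p)) := fun Q h0 h1 => hc Q h1 h0
  obtain ⟨i, hi⟩ := exists_chart hp.1
  have hIJ := Y.le_ptIdeal p hp
  have hiI : (X i : S N) ∉ Y.I := fun h => hi (hIJ h)
  set A : Subalgebra ℂ Y.L := (aeval (Y.y i) : S N →ₐ[ℂ] Y.L).range with hA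
  have hfr := Y.isFracOf_aff (ptIdeal p) hIJ hi
  have : IsFractionRing A Y.L := isFractionRing_of (Y.frac_y hiI)
  have htr : Algebra.trdeg ℂ A = 2 := by
    rw [trdeg_eq_of_frac A]
    simpa using Y.trdeg_L hY
  have hft : Algebra.FiniteType ℂ A :=
    Algebra.FiniteType.of_surjective (aeval (Y.y i) : S N →ₐ[ℂ] Y.L).rangeRestrict
      (AlgHom.rangeRestrict_surjective _)
  let ι : A →ₐ[ℂ] Y.locRing (ptIdeal p) := Subalgebra.inclusion hfr.le
  set M : Ideal A := (maximalIdeal (Y.locRing (ptIdeal p))).comap ι with hM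
  have hMmax : M.IsMaximal := by
    have hMne : M ≠ ⊤ := by
      rw [Ne, Ideal.eq_top_iff_one, hM, Ideal.mem_comap, map_one]
      exact (Ideal.ne_top_iff_one _).1 (maximalIdeal.isMaximal _).ne_top
    rw [Ideal.isMaximal_iff]
    refine ⟨(Ideal.ne_top_iff_one _).1 hMne, ?_⟩
    intro J a hMJ haM haJ
    obtain ⟨z, hz⟩ := Y.const_mod p hp (ι a)
    have h1 : a - algebraMap ℂ A z ∈ M := by
      rw [hM, Ideal.mem_comap, map_sub, ι.commutes]
      exact (mem_maximalIdeal _).2 hz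
    have h2 : algebraMap ℂ A z ∈ J := by
      have h3 := J.sub_mem haJ (hMJ h1)
      rwa [sub_sub_cancel] at h3
    have hz0 : z ≠ 0 := by
      rintro rfl
      rw [map_zero, sub_zero] at h1
      exact haM h1
    have h4 := J.mul_mem_left (algebraMap ℂ A z⁻¹) h2
    rwa [← map_mul, inv_mul_cancel₀ hz0, map_one] at h4
  obtain ⟨P, hP, hP0, hPM⟩ := exists_prime_lt htr M
  obtain ⟨f, hfP, hf0⟩ := Submodule.exists_mem_ne_zero_of_ne_bot hP0
  obtain ⟨e, heM, heP⟩ := SetLike.exists_of_lt hPM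
  have hrad : ι e ∈ (Ideal.span {ι f}).radical := by
    rw [Ideal.radical_eq_sInf, Ideal.mem_sInf]
    rintro Q ⟨hQf, hQ⟩
    have hQ0 : Q ≠ ⊥ := by
      rintro rfl
      have h2 : ι f ∈ (⊥ : Ideal (Y.locRing (ptIdeal p))) := hQf (Ideal.mem_span_singleton_self _)
      rw [Ideal.mem_bot] at h2
      apply hf0
      apply Subtype.ext
      exact congrArg (Subtype.val : Y.locRing (ptIdeal p) → Y.L) h2
    rw [hmax Q hQ0 hQ]
    exact heM
  obtain ⟨n, hn⟩ := hrad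
  rw [Ideal.mem_span_singleton] at hn
  obtain ⟨z, hz⟩ := hn
  obtain ⟨a, ha, s, hs, hs0, hsi, hzs⟩ := hfr.frac z z.2
  have h1 : (⟨s, hs⟩ : A) * e ^ n = f * ⟨a, ha⟩ := by
    apply Subtype.ext
    change s * (e : Y.L) ^ n = (f : Y.L) * a
    have h2 : (e : Y.L) ^ n = (f : Y.L) * (z : Y.L) := congrArg Subtype.val hz
    rw [h2, hzs]
    field_simp
  have h2 : (⟨s, hs⟩ : A) * e ^ n ∈ P := by
    rw [h1]
    exact P.mul_mem_right _ hfP
  rcases hP.mem_or_mem h2 with h3 | h3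
  · have h4 : ι ⟨s, hs⟩ ∈ maximalIdeal (Y.locRing (ptIdeal p)) := hPM.le h3
    rw [mem_maximalIdeal] at h4
    apply h4
    refine IsUnit.of_mul_eq_one ⟨s⁻¹, hsi⟩ ?_
    apply Subtype.ext
    exact mul_inv_cancel₀ hs0
  · exact heP (hP.mem_of_pow_mem n h3)

/-- No power of the maximal ideal is contained in a principal ideal. -/
theorem not_pow_le (hY : Y.HasDim 2) (hp : Y.IsPt p)
    [IsLocalRing (Y.locRing (ptIdeal p))] (e : Y.locRing (ptIdeal p))
    (he : e ∈ maximalIdeal (Y.locRing (ptIdeal p))) (n : ℕ) :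
    ¬ maximalIdeal (Y.locRing (ptIdeal p)) ^ n ≤ Ideal.span {e} := by
  intro h
  obtain ⟨i, hi⟩ := exists_chart hp.1
  have hIJ := Y.le_ptIdeal p hp
  have hnoeth := Y.noeth_locRing (ptIdeal p) hIJ hi
  obtain ⟨Q, hQ, hQ0, hQm⟩ := exists_prime93 Y p hY hp
  have h1 : maximalIdeal (Y.locRing (ptIdeal p)) ∈ (Ideal.span {e}).minimalPrimes := by
    refine ⟨⟨inferInstance, ?_⟩, ?_⟩
    · rw [Ideal.span_le]
      rintro x hx
      rw [Set.mem_singleton_iff.1 hx]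
      exact he
    · rintro P ⟨hP, hPe⟩ _
      exact hP.le_of_pow_le (h.trans hPe)
  have h2 : (maximalIdeal (Y.locRing (ptIdeal p))).height ≤ 1 := by
    have : (Ideal.span {e}).IsPrincipal := ⟨⟨e, rfl⟩⟩
    exact Ideal.height_le_one_of_isPrincipal_of_mem_minimalPrimes_of_isLocalRing _ h1
  have h3 : (⊥ : Ideal (Y.locRing (ptIdeal p))).height + 1 ≤ Q.height :=
    Ideal.height_add_one_le_of_lt_of_isPrime (bot_lt_iff_ne_bot.2 hQ0)
  have h4 : Q.height + 1 ≤ (maximalIdeal (Y.locRing (ptIdeal p))).height :=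
    Ideal.height_add_one_le_of_lt_of_isPrime (lt_of_le_of_ne (le_maximalIdeal hQ.ne_top) hQm)
  have h5 : (2 : ℕ∞) ≤ 1 := by
    calc (2 : ℕ∞) = 0 + 1 + 1 := by norm_num
      _ ≤ (⊥ : Ideal (Y.locRing (ptIdeal p))).height + 1 + 1 := by gcongr; exact zero_le
      _ ≤ Q.height + 1 := by gcongr
      _ ≤ _ := h4
      _ ≤ 1 := h2
  exact absurd h5 (by norm_num)

end H93

end LCY
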