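import Pool.Agent.Helper93.LCY.Val

/-!
The subfield `ℂ(t, π)` of a field with a divisorial valuation.
-/

open Polynomial

namespace LCY

variable {L : Type} [Field L] [Algebra ℂ L]

/-- Function fields of surfaces over the complex numbers. -/
structure Surf (L : Type) [Field L] [Algebra ℂ L] : Prop where
  trdeg : Algebra.trdeg ℂ L = 2
  fg : ∃ s : Set L, s.Finite ∧ IntermediateField.adjoin ℂ s = ⊤

namespace DVal

variable (v : DVal L)

theorem adjoin_t93 {t : L} (ht : ResTr v.v t) {f : L} (hf : f ∈ Algebra.adjoin ℂ {t}) :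
    f = 0 ∨ v.v f = 0 := by
  rw [Algebra.adjoin_singleton_eq_range_aeval] at hf
  obtain ⟨P, rfl⟩ := hf
  by_cases hP : P = 0
  · left
    rw [hP]
    exact map_zero _
  · exact Or.inr (ht P hP).2

theorem adjoin_t_int93 {t : L} (ht : ResTr v.v t) {f : L} (hf : f ∈ Algebra.adjoin ℂ {t}) :
    v.Int f := by
  rcases v.adjoin_t93 ht hf with h | h
  · exact Or.inl h
  · exact Or.inr h.ge

theorem eval_unit93 {π : L} (hπ0 : π ≠ 0) (hπ : v.v π = 1) (P : L[X]) (hP : P ≠ 0)
    (hc : ∀ i, P.coeff i = 0 ∨ v.v (P.coeff i) = 0) :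
    ∃ (m : ℕ) (Q : L[X]), P = X ^ m * Q ∧ (∀ i, Q.coeff i = P.coeff (i + m)) ∧
      Q.eval π ≠ 0 ∧ v.v (Q.eval π) = 0 := by
  have hdvd : (X : L[X]) ^ P.natTrailingDegree ∣ P := by
    rw [X_pow_dvd_iff]
    intro d hd
    exact coeff_eq_zero_of_lt_natTrailingDegree hd
  obtain ⟨Q, hQ⟩ := hdvd
  have hco : ∀ i, Q.coeff i = P.coeff (i + P.natTrailingDegree) := by
    intro i
    have h := congrArg (fun R : L[X] => R.coeff (i + P.natTrailingDegree)) hQ
    simp only [coeff_X_pow_mul] at h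
    exact h.symm
  refine ⟨P.natTrailingDegree, Q, hQ, hco, ?_⟩
  have h0 : Q.coeff 0 ≠ 0 := by
    rw [hco, zero_add]
    exact trailingCoeff_nonzero_iff_nonzero.2 hP
  have h1 : v.v (Q.coeff 0) = 0 := by
    rw [hco] at h0 ⊢
    exact (hc _).resolve_left h0
  have h2 : Q.eval π = Q.coeff 0 + π * Q.divX.eval π := by
    conv_lhs => rw [← divX_mul_X_add Q]
    rw [eval_add, eval_mul, eval_X, eval_C]
    ring
  rw [h2]
  refine v.unit_add_pos93 h0 h1 (v.pos_mul_left93 (Or.inr (by omega)) ?_)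
  rw [eval_eq_sum_range]
  refine v.int_sum _ _ fun i _ => ?_
  refine v.int_mul ?_ (v.int_pow (Or.inr (by omega)) i)
  rw [coeff_divX, hco]
  rcases hc (i + 1 + P.natTrailingDegree) with h | h
  · exact Or.inl h
  · exact Or.inr h.ge

theorem adjoin_pair93 {t π f : L} (hf : f ∈ Algebra.adjoin ℂ {t, π}) :
    ∃ P : L[X], (∀ i, P.coeff i ∈ Algebra.adjoin ℂ {t}) ∧ P.eval π = f := by
  induction hf using Algebra.adjoin_induction with
  | mem x hx =>
    rcases hx with hx | hx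
    · refine ⟨C x, fun i => ?_, eval_C⟩
      rw [coeff_C]
      split_ifs
      · rw [hx]
        exact Algebra.subset_adjoin rfl
      · exact Subalgebra.zero_mem _
    · refine ⟨X, fun i => ?_, ?_⟩
      · rw [coeff_X]
        split_ifs
        · exact Subalgebra.one_mem _
        · exact Subalgebra.zero_mem _
      · rw [eval_X]
        exact hx.symm
  | algebraMap r =>
    refine ⟨C (algebraMap ℂ L r), fun i => ?_, eval_C⟩
    rw [coeff_C]
    split_ifs
    · exact Subalgebra.algebraMap_mem _ _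
    · exact Subalgebra.zero_mem _
  | add x y _ _ hx hy =>
    obtain ⟨P, hP, hP'⟩ := hx
    obtain ⟨Q, hQ, hQ'⟩ := hy
    refine ⟨P + Q, fun i => ?_, by rw [eval_add, hP', hQ']⟩
    rw [coeff_add]
    exact Subalgebra.add_mem _ (hP i) (hQ i)
  | mul x y _ _ hx hy =>
    obtain ⟨P, hP, hP'⟩ := hx
    obtain ⟨Q, hQ, hQ'⟩ := hy
    refine ⟨P * Q, fun i => ?_, by rw [eval_mul, hP', hQ']⟩
    rw [coeff_mul]
    exact Subalgebra.sum_mem _ fun p _ => Subalgebra.mul_mem _ (hP _) (hQ _)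

theorem eval_mem93 {t π : L} {P : L[X]} (hP : ∀ i, P.coeff i ∈ Algebra.adjoin ℂ {t}) :
    P.eval π ∈ Algebra.adjoin ℂ {t, π} := by
  rw [eval_eq_sum_range]
  refine Subalgebra.sum_mem _ fun i _ => Subalgebra.mul_mem _ ?_ (Subalgebra.pow_mem _ ?_ _)
  · exact Algebra.adjoin_mono (by simp) (hP i)
  · exact Algebra.subset_adjoin (by simp)

/-- Nonzero elements of `ℂ[t, π]`. -/
theorem adjoin_pair_fac93 {t π f : L} (ht : ResTr v.v t) (hπ0 : π ≠ 0) (hπ : v.v π = 1)
    (hf : f ∈ Algebra.adjoin ℂ {t, π}) (hf0 : f ≠ 0) :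
    ∃ (m : ℕ) (g : L), g ∈ Algebra.adjoin ℂ {t, π} ∧ g ≠ 0 ∧ v.v g = 0 ∧ f = π ^ m * g := by
  obtain ⟨P, hP, rfl⟩ := adjoin_pair93 hf
  have hP0 : P ≠ 0 := by
    rintro rfl
    exact hf0 eval_zero
  obtain ⟨m, Q, h1, h2, h3, h4⟩ := v.eval_unit93 hπ0 hπ P hP0 fun i => v.adjoin_t93 ht (hP i)
  refine ⟨m, Q.eval π, eval_mem93 fun i => ?_, h3, h4, ?_⟩
  · rw [h2]
    exact hP _
  · rw [h1, eval_mul, eval_pow, eval_X]

/-- Elements of `ℂ(t, π)` in the valuation ring. -/
theorem field_int93 {t π x : L} (ht : ResTr v.v t) (hπ0 : π ≠ 0) (hπ : v.v π = 1)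
    (hx : x ∈ IntermediateField.adjoin ℂ {t, π}) (hxi : v.Int x) :
    ∃ r s : L, r ∈ Algebra.adjoin ℂ {t, π} ∧ s ∈ Algebra.adjoin ℂ {t, π} ∧ s ≠ 0 ∧ v.v s = 0 ∧
      x = r / s := by
  by_cases hx0 : x = 0
  · exact ⟨0, 1, Subalgebra.zero_mem _, Subalgebra.one_mem _, one_ne_zero, v.map_one, by simp [hx0]⟩
  rw [IntermediateField.mem_adjoin_iff_div] at hx
  obtain ⟨r, hr, s, hs, rfl⟩ := hx
  have hr0 : r ≠ 0 := fun h => hx0 (by rw [h, zero_div])
  have hs0 : s ≠ 0 := fun h => hx0 (by rw [h, div_zero])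
  obtain ⟨a, r', hr', hr'0, hvr, rfl⟩ := v.adjoin_pair_fac93 ht hπ0 hπ hr hr0
  obtain ⟨b, s', hs', hs'0, hvs, rfl⟩ := v.adjoin_pair_fac93 ht hπ0 hπ hs hs0
  have hval : v.v (π ^ a * r' / (π ^ b * s')) = (a : ℤ) - b := by
    rw [v.map_div hr0 hs0, v.map_mul _ _ (pow_ne_zero _ hπ0) hr'0,
      v.map_mul _ _ (pow_ne_zero _ hπ0) hs'0, v.map_pow hπ0, v.map_pow hπ0, hvr, hvs, hπ]
    ring
  have hab := hxi.resolve_left hx0
  rw [hval] at hab
  obtain ⟨c, rfl⟩ : ∃ c, a = b + c := ⟨a - b, by omega⟩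
  refine ⟨π ^ c * r', s', Subalgebra.mul_mem _ (Subalgebra.pow_mem _
    (Algebra.subset_adjoin (by simp)) _) hr', hs', hs'0, hvs, ?_⟩
  have hπb : π ^ b ≠ 0 := pow_ne_zero _ hπ0
  rw [pow_add]
  field_simp

theorem adjoin_pair_int93 {t π f : L} (ht : ResTr v.v t) (hπ : v.v π = 1)
    (hf : f ∈ Algebra.adjoin ℂ {t, π}) : v.Int f := by
  obtain ⟨P, hP, rfl⟩ := adjoin_pair93 hf
  rw [eval_eq_sum_range]
  exact v.int_sum _ _ fun i _ => v.int_mul (v.adjoin_t_int93 ht (hP i))
    (v.int_pow (Or.inr (by omega)) i)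

/-- `t` and `π` are algebraically independent. -/
theorem algInd93 {t π : L} (ht : ResTr v.v t) (hπ0 : π ≠ 0) (hπ : v.v π = 1) :
    AlgebraicIndependent ℂ (fun o : Option Unit => o.elim π (fun _ => t)) := by
  have htt : Transcendental ℂ t := by
    rintro ⟨P, hP, h0⟩
    exact (ht P hP).1 h0
  have h1 : AlgebraicIndependent ℂ (fun _ : Unit => t) :=
    algebraicIndependent_unique_type_iff.2 htt
  rw [h1.option_iff_transcendental]
  rintro ⟨P, hP, h0⟩
  have hr : Set.range (fun _ : Unit => t) = {t} := by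
    ext x
    simp [eq_comm]
  have hinj : Function.Injective
      (algebraMap (Algebra.adjoin ℂ (Set.range fun _ : Unit => t)) L) :=
    Subtype.coe_injective
  have hmap : P.map (algebraMap _ L) ≠ 0 := by
    rwa [Ne, Polynomial.map_eq_zero_iff hinj]
  have hc : ∀ i, (P.map (algebraMap _ L)).coeff i = 0 ∨
      v.v ((P.map (algebraMap _ L)).coeff i) = 0 := by
    intro i
    rw [coeff_map]
    apply v.adjoin_t93 ht
    have h2 : ((P.coeff i : Algebra.adjoin ℂ (Set.range fun _ : Unit => t)) : L) ∈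
        Algebra.adjoin ℂ (Set.range fun _ : Unit => t) := (P.coeff i).2
    exact (congrArg (fun S : Set L => ((P.coeff i : Algebra.adjoin ℂ
      (Set.range fun _ : Unit => t)) : L) ∈ Algebra.adjoin ℂ S) hr).mp h2
  obtain ⟨m, Q, h2, _, h3, _⟩ := v.eval_unit93 hπ0 hπ _ hmap hc
  rw [aeval_def, eval₂_eq_eval_map, h2, eval_mul, eval_pow, eval_X] at h0
  exact (mul_ne_zero (pow_ne_zero _ hπ0) h3) h0

theorem range_opt93 (t π : L) :
    Set.range (fun o : Option Unit => o.elim π (fun _ => t)) = {t, π} := by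
  ext x
  constructor
  · rintro ⟨o, rfl⟩
    cases o with
    | none => exact Or.inr rfl
    | some u => exact Or.inl rfl
  · rintro (h | h)
    · exact ⟨some (), h.symm⟩
    · exact ⟨none, (show x = π from h).symm⟩

theorem finite_ext93 (hL : Surf L) {t π : L} (ht : ResTr v.v t) (hπ0 : π ≠ 0) (hπ : v.v π = 1) :
    FiniteDimensional (IntermediateField.adjoin ℂ {t, π}) L := by
  have h1 : IsTranscendenceBasis ℂ (fun o : Option Unit => o.elim π (fun _ => t)) := by
    apply (v.algInd93 ht hπ0 hπ).isTranscendenceBasis_of_trdeg_le_of_finite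
    rw [hL.trdeg]
    simp only [Cardinal.mk_fintype, Fintype.card_option, Fintype.card_unit]
    norm_num
  have h2 := h1.isAlgebraic_field
  rw [range_opt93] at h2
  obtain ⟨s, hs, htop⟩ := hL.fg
  have : Finite s := hs
  have h3 : FiniteDimensional (IntermediateField.adjoin ℂ {t, π})
      (IntermediateField.adjoin (IntermediateField.adjoin ℂ {t, π}) s) :=
    IntermediateField.finiteDimensional_adjoin fun x _ =>
      (h2.isAlgebraic x).isIntegral
  have h4 : IntermediateField.adjoin (IntermediateField.adjoin ℂ {t, π}) s = ⊤ := by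
    rw [eq_top_iff]
    intro x _
    have hx : x ∈ IntermediateField.adjoin ℂ s := by
      rw [htop]
      exact IntermediateField.mem_top
    have h5 : IntermediateField.adjoin ℂ s ≤
        (IntermediateField.adjoin (IntermediateField.adjoin ℂ {t, π}) s).restrictScalars ℂ :=
      IntermediateField.adjoin_le_iff.2 (IntermediateField.subset_adjoin _ _)
    exact h5 hx
  rw [h4] at h3
  exact Module.Finite.equiv IntermediateField.topEquiv.toLinearEquiv

end DVal

end LCY
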