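import Pool.Agent.Helper93.LCY.Val2

/-!
The valuation ring of a divisorial valuation is a localization of the integral closure of
`ℂ(t, π) ∩ V`.
-/

open Polynomial

namespace LCY

variable {L : Type} [Field L] [Algebra ℂ L]

namespace DVal

variable (v : DVal L)

section

variable {t π : L}

/-- the valuation ring of `ℂ(t, π)` -/
noncomputable def sub093 (v : DVal L) (t π : L) : ValuationSubring (IntermediateField.adjoin ℂ {t, π}) :=
  v.sub93.comap (algebraMap _ L)

theorem mem_sub093 (x : IntermediateField.adjoin ℂ {t, π}) :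
    x ∈ v.sub093 t π ↔ v.Int (x : L) := Iff.rfl

theorem sub0_isUnit93 (x : v.sub093 t π)
    (h0 : ((x : IntermediateField.adjoin ℂ {t, π}) : L) ≠ 0)
    (h : v.v ((x : IntermediateField.adjoin ℂ {t, π}) : L) = 0) : IsUnit x := by
  have h1 : v.Int (((x : IntermediateField.adjoin ℂ {t, π})⁻¹ :
      IntermediateField.adjoin ℂ {t, π}) : L) := by
    rw [IntermediateField.coe_inv]
    exact v.int_inv_of_unit93 h0 h
  refine IsUnit.of_mul_eq_one ⟨(x : IntermediateField.adjoin ℂ {t, π})⁻¹, h1⟩ ?_
  apply Subtype.ext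
  have h2 : (x : IntermediateField.adjoin ℂ {t, π}) ≠ 0 := by
    intro h3
    exact h0 (by rw [h3]; rfl)
  exact mul_inv_cancel₀ h2

theorem sub0_v_of_isUnit93 (x : v.sub093 t π) (hx : IsUnit x) :
    v.v ((x : IntermediateField.adjoin ℂ {t, π}) : L) = 0 := by
  obtain ⟨y, hy⟩ := hx.exists_right_inv
  have h : ((x : IntermediateField.adjoin ℂ {t, π}) : L) *
      ((y : IntermediateField.adjoin ℂ {t, π}) : L) = 1 :=
    congrArg (fun q : v.sub093 t π => ((q : IntermediateField.adjoin ℂ {t, π}) : L)) hy
  have hx0 := left_ne_zero_of_mul_eq_one h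
  have hy0 := right_ne_zero_of_mul_eq_one h
  have h1 := v.map_mul _ _ hx0 hy0
  rw [h, v.map_one] at h1
  have h2 := (show v.Int ((x : IntermediateField.adjoin ℂ {t, π}) : L) from x.2).resolve_left hx0
  have h3 := (show v.Int ((y : IntermediateField.adjoin ℂ {t, π}) : L) from y.2).resolve_left hy0
  omega

theorem sub0_dvr93 (hπ0 : π ≠ 0) (hπ : v.v π = 1) : IsDiscreteValuationRing (v.sub093 t π) := by
  apply IsDiscreteValuationRing.ofHasUnitMulPowIrreducibleFactorization
  have hπm : π ∈ IntermediateField.adjoin ℂ {t, π} :=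
    IntermediateField.subset_adjoin _ _ (by simp)
  let πK : IntermediateField.adjoin ℂ {t, π} := ⟨π, hπm⟩
  have hπi : v.Int (πK : L) := Or.inr (by change 0 ≤ v.v π; omega)
  let p : v.sub093 t π := ⟨πK, hπi⟩
  refine ⟨p, ?_, ?_⟩
  · constructor
    · intro hu
      have h := v.sub0_v_of_isUnit93 p hu
      change v.v π = 0 at h
      omega
    · intro a b hab
      have h : π = ((a : IntermediateField.adjoin ℂ {t, π}) : L) *
          ((b : IntermediateField.adjoin ℂ {t, π}) : L) :=
        congrArg (fun q : v.sub093 t π => ((q : IntermediateField.adjoin ℂ {t, π}) : L)) hab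
      have hne := hπ0
      rw [h] at hne
      have ha0 := left_ne_zero_of_mul hne
      have hb0 := right_ne_zero_of_mul hne
      have h1 := v.map_mul _ _ ha0 hb0
      rw [← h, hπ] at h1
      have h2 := (show v.Int ((a : IntermediateField.adjoin ℂ {t, π}) : L) from a.2).resolve_left
        ha0
      have h3 := (show v.Int ((b : IntermediateField.adjoin ℂ {t, π}) : L) from b.2).resolve_left
        hb0
      rcases h2.lt_or_eq with h4 | h4
      · exact Or.inr (v.sub0_isUnit93 b hb0 (by omega))
      · exact Or.inl (v.sub0_isUnit93 a ha0 h4.symm)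
  · intro x hx
    have hx0 : ((x : IntermediateField.adjoin ℂ {t, π}) : L) ≠ 0 := by
      intro h
      apply hx
      apply Subtype.ext
      apply Subtype.ext
      exact h
    have hxi := (show v.Int ((x : IntermediateField.adjoin ℂ {t, π}) : L) from x.2).resolve_left
      hx0
    obtain ⟨n, hn⟩ := Int.eq_ofNat_of_zero_le hxi
    refine ⟨n, ?_⟩
    have hyv : v.v (((x : IntermediateField.adjoin ℂ {t, π}) : L) / π ^ n) = 0 := by
      rw [v.map_div hx0 (pow_ne_zero _ hπ0), v.map_pow hπ0, hn, hπ]
      ring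
    let y : v.sub093 t π := ⟨(x : IntermediateField.adjoin ℂ {t, π}) / πK ^ n, by
      right
      rw [map_div₀, _root_.map_pow]
      exact hyv.ge⟩
    have hyL : ((y : IntermediateField.adjoin ℂ {t, π}) : L) =
        ((x : IntermediateField.adjoin ℂ {t, π}) : L) / π ^ n := by
      change (((x : IntermediateField.adjoin ℂ {t, π}) / πK ^ n :
        IntermediateField.adjoin ℂ {t, π}) : L) = _
      rw [IntermediateField.coe_div, IntermediateField.coe_pow]
    have hyu : IsUnit y := v.sub0_isUnit93 y (by
      rw [hyL]; exact div_ne_zero hx0 (pow_ne_zero _ hπ0)) (by rw [hyL]; exact hyv)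
    refine ⟨hyu.unit, ?_⟩
    apply Subtype.ext
    apply Subtype.ext
    change π ^ n * ((y : IntermediateField.adjoin ℂ {t, π}) : L) =
      ((x : IntermediateField.adjoin ℂ {t, π}) : L)
    rw [hyL]
    field_simp

/-- good coefficients: elements of `ℂ(t, π) ∩ V` -/
def Good93 (v : DVal L) (t π : L) (c : L) : Prop :=
  c ∈ IntermediateField.adjoin ℂ {t, π} ∧ v.Int c

/-- integral over `ℂ(t, π) ∩ V` -/
def Itg93 (v : DVal L) (t π : L) (b : L) : Prop :=
  ∃ Q : L[X], Q.Monic ∧ (∀ i, v.Good93 t π (Q.coeff i)) ∧ Q.eval b = 0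

theorem itg_int93 {b : L} (hb : v.Itg93 t π b) : v.Int b := by
  obtain ⟨Q, hQ, hQc, hb⟩ := hb
  have hlift : Q ∈ lifts (algebraMap v.sub93 L) := by
    rw [lifts_iff_coeff_lifts]
    intro i
    exact ⟨⟨Q.coeff i, (hQc i).2⟩, rfl⟩
  obtain ⟨P, hPmap, _, hPm⟩ := lifts_and_degree_eq_and_monic hlift hQ
  have hint : IsIntegral v.sub93 b := ⟨P, hPm, by rw [← eval_map, hPmap, hb]⟩
  obtain ⟨y, hy⟩ := IsIntegrallyClosed.algebraMap_eq_of_integral hint
  rw [← hy]
  exact y.2

/-- The integral closure of `ℂ(t, π) ∩ V` in `L`. -/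
theorem int_closure93 (hL : Surf L) (ht : ResTr v.v t) (hπ0 : π ≠ 0) (hπ : v.v π = 1) :
    (∃ s : Finset L, (∀ b ∈ s, v.Itg93 t π b) ∧
      ∀ b, v.Itg93 t π b → ∃ c : L → L, (∀ x ∈ s, v.Good93 t π (c x)) ∧ b = ∑ x ∈ s, c x * x) ∧
    ∀ a, v.Int a → ∃ b s : L, v.Itg93 t π b ∧ v.Itg93 t π s ∧ s ≠ 0 ∧ v.v s = 0 ∧ a = b / s := by
  have := v.finite_ext93 hL ht hπ0 hπ
  have := v.sub0_dvr93 (t := t) hπ0 hπ
  set K := IntermediateField.adjoin ℂ {t, π} with hK
  let : Algebra (v.sub093 t π) L := ((algebraMap K L).comp (algebraMap (v.sub093 t π) K)).toAlgebra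
  have : IsScalarTower (v.sub093 t π) K L := IsScalarTower.of_algebraMap_eq fun _ => rfl
  have : Algebra.IsSeparable K L := inferInstance
  have hitg : ∀ b : L, b ∈ integralClosure (v.sub093 t π) L ↔ v.Itg93 t π b := by
    intro b
    constructor
    · rintro ⟨P, hP, hb⟩
      refine ⟨P.map (algebraMap _ L), hP.map _, fun i => ?_, ?_⟩
      · rw [coeff_map]
        exact ⟨((P.coeff i : v.sub093 t π) : K).2, (P.coeff i).2⟩
      · rwa [eval_map]
    · rintro ⟨Q, hQ, hQc, hb⟩
      have hlift : Q ∈ lifts (algebraMap (v.sub093 t π) L) := by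
        rw [lifts_iff_coeff_lifts]
        intro i
        exact ⟨⟨⟨Q.coeff i, (hQc i).1⟩, (hQc i).2⟩, rfl⟩
      obtain ⟨P, hPmap, _, hPm⟩ := lifts_and_degree_eq_and_monic hlift hQ
      refine ⟨P, hPm, ?_⟩
      rw [← eval_map, hPmap, hb]
  constructor
  · have : Module.Finite (v.sub093 t π) (integralClosure (v.sub093 t π) L) :=
      IsIntegralClosure.finite (v.sub093 t π) K L (integralClosure (v.sub093 t π) L)
    obtain ⟨s, hs⟩ := this.fg_top
    classical
    refine ⟨s.image (fun x : integralClosure (v.sub093 t π) L => (x : L)), ?_, ?_⟩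
    · intro b hb
      rw [Finset.mem_image] at hb
      obtain ⟨x, _, rfl⟩ := hb
      exact (hitg _).1 x.2
    · intro b hb
      have hb' : (⟨b, (hitg b).2 hb⟩ : integralClosure (v.sub093 t π) L) ∈
          Submodule.span (v.sub093 t π) (s : Set (integralClosure (v.sub093 t π) L)) := by
        rw [hs]
        exact Submodule.mem_top
      rw [Submodule.mem_span_finset] at hb'
      obtain ⟨f, _, hf⟩ := hb'
      have hinj : Function.Injective (fun x : integralClosure (v.sub093 t π) L => (x : L)) :=
        Subtype.coe_injective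
      refine ⟨fun y => if h : y ∈ integralClosure (v.sub093 t π) L then
        (((f ⟨y, h⟩ : v.sub093 t π) : K) : L) else 0, ?_, ?_⟩
      · intro x hx
        rw [Finset.mem_image] at hx
        obtain ⟨y, _, rfl⟩ := hx
        have hy : (y : L) ∈ integralClosure (v.sub093 t π) L := y.2
        simp only [dif_pos hy]
        exact ⟨((f _ : v.sub093 t π) : K).2, (f _).2⟩
      · rw [Finset.sum_image (fun x _ y _ h => hinj h)]
        have h1 := congrArg (fun x : integralClosure (v.sub093 t π) L => (x : L)) hf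
        simp only [AddSubmonoidClass.coe_finsetSum] at h1
        rw [← h1]
        refine Finset.sum_congr rfl fun x _ => ?_
        have hx : (x : L) ∈ integralClosure (v.sub093 t π) L := x.2
        simp only [dif_pos hx]
        rfl
  · have : IsDedekindDomain (integralClosure (v.sub093 t π) L) :=
      integralClosure.isDedekindDomain (v.sub093 t π) K L
    have : IsFractionRing (integralClosure (v.sub093 t π) L) L :=
      integralClosure.isFractionRing_of_finite_extension K L
    have hBi : ∀ b : integralClosure (v.sub093 t π) L, v.Int (b : L) := fun b =>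
      v.itg_int93 ((hitg _).1 b.2)
    let q : Ideal (integralClosure (v.sub093 t π) L) :=
      { carrier := {b | v.Pos (b : L)}
        add_mem' := fun ha hb => v.pos_add ha hb
        zero_mem' := v.pos_zero93
        smul_mem' := fun c _ hx => v.pos_mul_right93 (hBi c) hx }
    have hq : ∀ b : integralClosure (v.sub093 t π) L, b ∈ q ↔ v.Pos (b : L) := fun _ => Iff.rfl
    have hqp : q.IsPrime := by
      constructor
      · rw [Ne, Ideal.eq_top_iff_one, hq]
        exact v.not_pos_one
      · intro a b hab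
        by_contra hc
        rw [not_or, hq, hq] at hc
        obtain ⟨ha0, ha⟩ := v.unit_of93 (hBi a) hc.1
        obtain ⟨hb0, hb⟩ := v.unit_of93 (hBi b) hc.2
        apply v.not_pos_of_unit93 (mul_ne_zero ha0 hb0) _ ((hq _).1 hab)
        rw [v.map_mul _ _ ha0 hb0, ha, hb, add_zero]
    have hqb : q ≠ ⊥ := by
      have hπm : π ∈ K := IntermediateField.subset_adjoin _ _ (by simp)
      have hπI : v.Itg93 t π π := by
        refine ⟨X - C π, monic_X_sub_C π, fun i => ?_, by simp⟩
        have h1 : ∀ c : ℤ, v.Good93 t π (c : L) := by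
          intro c
          have h2 : (c : L) = algebraMap ℂ L c := by simp
          rw [h2]
          exact ⟨IntermediateField.algebraMap_mem _ _, v.int_const _⟩
        rw [coeff_sub, coeff_X, coeff_C]
        have h3 : v.Good93 t π (if 1 = i then (1 : L) else 0) := by
          split_ifs
          · exact_mod_cast h1 1
          · exact_mod_cast h1 0
        have h4 : v.Good93 t π (if i = 0 then π else 0) := by
          split_ifs
          · exact ⟨hπm, Or.inr (by omega)⟩
          · exact_mod_cast h1 0
        exact ⟨IntermediateField.sub_mem _ h3.1 h4.1, v.int_sub h3.2 h4.2⟩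
      intro h
      have h1 : (⟨π, (hitg π).2 hπI⟩ : integralClosure (v.sub093 t π) L) ∈ q := by
        rw [hq]
        right
        change 0 < v.v π
        omega
      rw [h, Ideal.mem_bot] at h1
      exact hπ0 (congrArg (fun x : integralClosure (v.sub093 t π) L => (x : L)) h1)
    have hle : q.primeCompl ≤ nonZeroDivisors (integralClosure (v.sub093 t π) L) :=
      q.primeCompl_le_nonZeroDivisors
    let N := Localization.subalgebra.ofField L q.primeCompl hle
    have hNmem : ∀ x : L, x ∈ N ↔ ∃ (a s : integralClosure (v.sub093 t π) L)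
        (_ : s ∈ q.primeCompl), x = (a : L) * (s : L)⁻¹ := fun _ => Iff.rfl
    have : IsLocalization.AtPrime N q :=
      Localization.subalgebra.isLocalization_ofField L q.primeCompl hle
    have : IsDiscreteValuationRing N :=
      IsLocalization.AtPrime.isDiscreteValuationRing_of_dedekind_domain
        (integralClosure (v.sub093 t π) L) hqb N
    have hval : ∀ a : L, a ∈ N ∨ a⁻¹ ∈ N := by
      intro a
      rcases ValuationRing.isInteger_or_isInteger N a with ⟨x, hx⟩ | ⟨x, hx⟩
      · left
        rw [← hx]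
        exact x.2
      · right
        rw [← hx]
        exact x.2
    intro a ha
    rcases hval a with h | h
    · obtain ⟨b, s, hs, hab⟩ := (hNmem a).1 h
      obtain ⟨hs0, hsv⟩ := v.unit_of93 (hBi s) hs
      exact ⟨b, s, (hitg _).1 b.2, (hitg _).1 s.2, hs0, hsv, by rw [hab, div_eq_mul_inv]⟩
    · obtain ⟨b, s, hs, hab⟩ := (hNmem a⁻¹).1 h
      obtain ⟨hs0, hsv⟩ := v.unit_of93 (hBi s) hs
      by_cases ha0 : a = 0
      · refine ⟨0, 1, ?_, ?_, one_ne_zero, v.map_one, by rw [ha0, zero_div]⟩
        · exact (hitg _).1 (Subalgebra.zero_mem _)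
        · exact (hitg _).1 (Subalgebra.one_mem _)
      have hb0 : (b : L) ≠ 0 := by
        intro hb
        rw [hb, zero_mul] at hab
        exact inv_ne_zero ha0 hab
      have h1 : v.v a⁻¹ = v.v (b : L) := by
        rw [hab, v.map_mul _ _ hb0 (inv_ne_zero hs0), v.map_inv hs0, hsv]
        ring
      rw [v.map_inv ha0] at h1
      have h2 := ha.resolve_left ha0
      have h3 := (hBi b).resolve_left hb0
      refine ⟨s, b, (hitg _).1 s.2, (hitg _).1 b.2, hb0, by omega, ?_⟩
      rw [← inv_inv a, hab]
      field_simp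

end

end DVal

end LCY
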