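import Pool.Agent.Helper93.LCY.Val3

/-!
Derivations regular at a divisorial valuation: it is enough that they are regular at `t` and `π`.
-/

open Polynomial

namespace LCY

variable {L : Type} [Field L] [Algebra ℂ L]

theorem der_eval93 (D : Derivation ℂ L L) (b : L) (Q : L[X]) :
    D (Q.eval b) = (Q.sum fun i c => D c * b ^ i) + (derivative Q).eval b * D b := by
  induction Q using Polynomial.induction_on' with
  | add p q hp hq =>
    rw [eval_add, _root_.map_add, hp, hq, derivative_add, eval_add, Polynomial.sum_add_index]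
    · ring
    · intro i
      simp
    · intro i a b'
      rw [_root_.map_add]
      ring
  | monomial n c =>
    rw [eval_monomial, Derivation.leibniz, Derivation.leibniz_pow, derivative_monomial,
      eval_monomial, Polynomial.sum_monomial_index]
    · simp only [smul_eq_mul, nsmul_eq_mul]
      ring
    · simp

namespace DVal

variable (v : DVal L)

/-- The value of `π ^ n * x` -/
theorem int_pow_mul93 {π x : L} (hπ : v.v π = 1) (n : ℕ) (hx : v.Int x) : v.Int (π ^ n * x) :=
  v.int_mul (v.int_pow (Or.inr (by omega)) n) hx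

theorem der_div_int93 {D : Derivation ℂ L L} {c b s : L} (hs0 : s ≠ 0) (hs : v.v s = 0)
    (hb : v.Int b) (hDb : v.Int (c * D b)) (hDs : v.Int (c * D s)) : v.Int (c * D (b / s)) := by
  have h : c * D (b / s) = (s⁻¹) ^ 2 * (s * (c * D b) - b * (c * D s)) := by
    rw [Derivation.leibniz_div]
    simp only [smul_eq_mul]
    ring
  rw [h]
  exact v.int_mul (v.int_pow (v.int_inv_of_unit93 hs0 hs) 2)
    (v.int_sub (v.int_mul (Or.inr hs.ge) hDb) (v.int_mul hb hDs))

theorem der_div_pos93 {D : Derivation ℂ L L} {c b s : L} (hs0 : s ≠ 0) (hs : v.v s = 0)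
    (hb : v.Int b) (hDb : v.Pos (c * D b)) (hDs : v.Pos (c * D s)) : v.Pos (c * D (b / s)) := by
  have h : c * D (b / s) = (s⁻¹) ^ 2 * (s * (c * D b) - b * (c * D s)) := by
    rw [Derivation.leibniz_div]
    simp only [smul_eq_mul]
    ring
  rw [h]
  exact v.pos_mul_right93 (v.int_pow (v.int_inv_of_unit93 hs0 hs) 2)
    (v.pos_sub93 (v.pos_mul_right93 (Or.inr hs.ge) hDb) (v.pos_mul_right93 hb hDs))

theorem der_pair_pos93 {D : Derivation ℂ L L} {c t π f : L} (ht : ResTr v.v t) (hπ : v.v π = 1)
    (hDt : v.Pos (c * D t)) (hDπ : v.Pos (c * D π)) (hf : f ∈ Algebra.adjoin ℂ {t, π}) :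
    v.Pos (c * D f) := by
  induction hf using Algebra.adjoin_induction with
  | mem x hx =>
    rcases hx with hx | hx
    · rw [hx]
      exact hDt
    · rw [show x = π from hx]
      exact hDπ
  | algebraMap r =>
    left
    rw [Derivation.map_algebraMap, mul_zero]
  | add x y _ _ hx hy =>
    rw [_root_.map_add, mul_add]
    exact v.pos_add hx hy
  | mul x y hx0 hy0 hx hy =>
    have h : c * D (x * y) = x * (c * D y) + y * (c * D x) := by
      rw [Derivation.leibniz]
      simp only [smul_eq_mul]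
      ring
    rw [h]
    exact v.pos_add (v.pos_mul_right93 (v.adjoin_pair_int93 ht hπ hx0) hy)
      (v.pos_mul_right93 (v.adjoin_pair_int93 ht hπ hy0) hx)

theorem der_pair_int93 {D : Derivation ℂ L L} {c t π f : L} (ht : ResTr v.v t) (hπ : v.v π = 1)
    (hDt : v.Int (c * D t)) (hDπ : v.Int (c * D π)) (hf : f ∈ Algebra.adjoin ℂ {t, π}) :
    v.Int (c * D f) := by
  induction hf using Algebra.adjoin_induction with
  | mem x hx =>
    rcases hx with hx | hx
    · rw [hx]
      exact hDt
    · rw [show x = π from hx]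
      exact hDπ
  | algebraMap r =>
    left
    rw [Derivation.map_algebraMap, mul_zero]
  | add x y _ _ hx hy =>
    rw [_root_.map_add, mul_add]
    exact v.int_add hx hy
  | mul x y hx0 hy0 hx hy =>
    have h : c * D (x * y) = x * (c * D y) + y * (c * D x) := by
      rw [Derivation.leibniz]
      simp only [smul_eq_mul]
      ring
    rw [h]
    exact v.int_add (v.int_mul (v.adjoin_pair_int93 ht hπ hx0) hy)
      (v.int_mul (v.adjoin_pair_int93 ht hπ hy0) hx)

theorem good_pos93 {D : Derivation ℂ L L} {c t π f : L} (ht : ResTr v.v t) (hπ0 : π ≠ 0)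
    (hπ : v.v π = 1) (hDt : v.Pos (c * D t)) (hDπ : v.Pos (c * D π)) (hf : v.Good93 t π f) :
    v.Pos (c * D f) := by
  obtain ⟨r, s, hr, hs, hs0, hsv, rfl⟩ := v.field_int93 ht hπ0 hπ hf.1 hf.2
  exact v.der_div_pos93 hs0 hsv (v.adjoin_pair_int93 ht hπ hr) (v.der_pair_pos93 ht hπ hDt hDπ hr)
    (v.der_pair_pos93 ht hπ hDt hDπ hs)

theorem good_int93 {D : Derivation ℂ L L} {c t π f : L} (ht : ResTr v.v t) (hπ0 : π ≠ 0)
    (hπ : v.v π = 1) (hDt : v.Int (c * D t)) (hDπ : v.Int (c * D π)) (hf : v.Good93 t π f) :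
    v.Int (c * D f) := by
  obtain ⟨r, s, hr, hs, hs0, hsv, rfl⟩ := v.field_int93 ht hπ0 hπ hf.1 hf.2
  exact v.der_div_int93 hs0 hsv (v.adjoin_pair_int93 ht hπ hr) (v.der_pair_int93 ht hπ hDt hDπ hr)
    (v.der_pair_int93 ht hπ hDt hDπ hs)

theorem good_add93 {t π a b : L} (ha : v.Good93 t π a) (hb : v.Good93 t π b) : v.Good93 t π (a + b) :=
  ⟨IntermediateField.add_mem _ ha.1 hb.1, v.int_add ha.2 hb.2⟩

theorem good_mul93 {t π a b : L} (ha : v.Good93 t π a) (hb : v.Good93 t π b) : v.Good93 t π (a * b) :=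
  ⟨IntermediateField.mul_mem _ ha.1 hb.1, v.int_mul ha.2 hb.2⟩

theorem good_const93 {t π : L} (c : ℂ) : v.Good93 t π (algebraMap ℂ L c) :=
  ⟨IntermediateField.algebraMap_mem _ _, v.int_const c⟩

/-- A derivation (times `c`) that maps `V` to `V`, the maximal ideal to itself and is zero modulo
the maximal ideal on `ℂ(t, π) ∩ V` is zero modulo the maximal ideal on integral elements. -/
theorem itg_pos93 {D : Derivation ℂ L L} {c t π b : L} (hb : v.Int b)
    (hg : ∀ f, v.Good93 t π f → v.Pos (c * D f)) (hV : ∀ f, v.Int f → v.Int (c * D f))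
    (hM : ∀ f, v.Pos f → v.Pos (c * D f)) (k : ℕ) :
    ∀ Q : L[X], Q.Monic → Q.natDegree = k → (∀ i, v.Good93 t π (Q.coeff i)) →
      v.Pos (Q.eval b) → v.Pos (c * D b) := by
  induction k with
  | zero =>
    intro Q hQ hk _ h
    exfalso
    rw [hQ.natDegree_eq_zero.1 hk, eval_one] at h
    exact v.not_pos_one h
  | succ k ih =>
    intro Q hQ hk hQc h
    have hinteval : v.Int ((derivative Q).eval b) := by
      rw [eval_eq_sum_range]
      refine v.int_sum _ _ fun i _ => v.int_mul ?_ (v.int_pow hb i)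
      rw [coeff_derivative]
      refine v.int_mul (hQc _).2 ?_
      have h2 : ((i : L) + 1) = algebraMap ℂ L ((i : ℂ) + 1) := by simp
      rw [h2]
      exact v.int_const _
    rcases v.pos_or93 hinteval with h1 | ⟨h1, h2⟩
    · have hk0 : ((k : ℂ) + 1) ≠ 0 := by exact_mod_cast Nat.succ_ne_zero k
      have hlead : (derivative Q).coeff k = algebraMap ℂ L ((k : ℂ) + 1) := by
        rw [coeff_derivative, ← hk, hQ.coeff_natDegree]
        simp
      have hne : algebraMap ℂ L ((k : ℂ) + 1) ≠ 0 := by
        rw [Ne, map_eq_zero]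
        exact hk0
      have hdeg : (derivative Q).natDegree ≤ k := by
        have := natDegree_derivative_le Q
        omega
      have hdeg' : (C (algebraMap ℂ L ((k : ℂ) + 1)⁻¹) * derivative Q).natDegree ≤ k :=
        (natDegree_C_mul_le _ _).trans hdeg
      have hcoeff : (C (algebraMap ℂ L ((k : ℂ) + 1)⁻¹) * derivative Q).coeff k = 1 := by
        rw [coeff_C_mul, hlead, ← _root_.map_mul, inv_mul_cancel₀ hk0, _root_.map_one]
      have hmonic : (C (algebraMap ℂ L ((k : ℂ) + 1)⁻¹) * derivative Q).Monic :=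
        monic_of_natDegree_le_of_coeff_eq_one k hdeg' hcoeff
      refine ih _ hmonic ?_ ?_ ?_
      · refine le_antisymm hdeg' ?_
        apply le_natDegree_of_ne_zero
        rw [hcoeff]
        exact one_ne_zero
      · intro i
        rw [coeff_C_mul, coeff_derivative]
        have h2 : ((i : L) + 1) = algebraMap ℂ L ((i : ℂ) + 1) := by simp
        rw [h2]
        exact v.good_mul93 (v.good_const93 _) (v.good_mul93 (hQc _) (v.good_const93 _))
      · rw [eval_mul, eval_C]
        exact v.pos_mul_right93 (v.int_const _) h1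
    · have h3 := hM _ h
      rw [der_eval93, mul_add] at h3
      have h4 : v.Pos (c * Q.sum fun i a => D a * b ^ i) := by
        rw [Polynomial.sum_def, Finset.mul_sum]
        refine v.pos_sum93 _ _ fun i _ => ?_
        rw [← mul_assoc]
        exact v.pos_mul_left93 (hg _ (hQc i)) (v.int_pow hb i)
      have h5 := v.pos_sub93 h3 h4
      rw [add_sub_cancel_left] at h5
      have h6 := v.pos_mul_right93 (v.int_inv_of_unit93 h1 h2) h5
      have h7 : ((derivative Q).eval b)⁻¹ * (c * ((derivative Q).eval b * D b)) = c * D b := by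
        field_simp
      rwa [h7] at h6

/-- F1: a derivation that is regular at `t` and `π` is regular on the whole valuation ring. -/
theorem der_int (hL : Surf L) {D : Derivation ℂ L L} {t π : L} (ht : ResTr v.v t) (hπ0 : π ≠ 0)
    (hπ : v.v π = 1) (hDt : v.Int (D t)) (hDπ : v.Int (D π)) {a : L} (ha : v.Int a) :
    v.Int (D a) := by
  obtain ⟨⟨s, hs, hspan⟩, hloc⟩ := v.int_closure93 hL ht hπ0 hπ
  have hπi : v.Int π := Or.inr (by omega)
  -- a uniform bound
  have hbound : ∃ n : ℕ, ∀ a, v.Int a → v.Int (π ^ n * D a) := by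
    have h1 : ∃ n : ℕ, ∀ x ∈ s, v.Int (π ^ n * D x) := by
      refine ⟨∑ x ∈ s, (v.v (D x)).natAbs, fun x hx => ?_⟩
      by_cases h0 : D x = 0
      · left
        rw [h0, mul_zero]
      right
      rw [v.map_mul _ _ (pow_ne_zero _ hπ0) h0, v.map_pow hπ0, hπ]
      have h2 : (v.v (D x)).natAbs ≤ ∑ x ∈ s, (v.v (D x)).natAbs :=
        Finset.single_le_sum (f := fun x => (v.v (D x)).natAbs) (fun _ _ => Nat.zero_le _) hx
      omega
    obtain ⟨n, hn⟩ := h1
    have h2 : ∀ b, v.Itg93 t π b → v.Int (π ^ n * D b) := by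
      intro b hb
      obtain ⟨c, hc, rfl⟩ := hspan b hb
      rw [map_sum, Finset.mul_sum]
      refine v.int_sum _ _ fun x hx => ?_
      have h3 : π ^ n * D (c x * x) = c x * (π ^ n * D x) + π ^ n * (x * D (c x)) := by
        rw [Derivation.leibniz]
        simp only [smul_eq_mul]
        ring
      rw [h3]
      refine v.int_add (v.int_mul (hc x hx).2 (hn x hx)) (v.int_mul (v.int_pow hπi n)
        (v.int_mul (v.itg_int93 (hs x hx)) ?_))
      have h4 := v.good_int93 (c := 1) (D := D) ht hπ0 hπ (by rwa [one_mul]) (by rwa [one_mul])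
        (hc x hx)
      rwa [one_mul] at h4
    refine ⟨n, fun a ha => ?_⟩
    obtain ⟨b, s', hb, hs', hs0, hsv, rfl⟩ := hloc a ha
    exact v.der_div_int93 hs0 hsv (v.itg_int93 hb) (h2 b hb) (h2 s' hs')
  obtain ⟨n, hn⟩ := hbound
  -- descent
  have hdesc : ∀ n : ℕ, (∀ a, v.Int a → v.Int (π ^ n * D a)) → ∀ a, v.Int a → v.Int (D a) := by
    intro n
    induction n with
    | zero =>
      intro h a ha
      have := h a ha
      rwa [pow_zero, one_mul] at this
    | succ n ih =>
      intro h
      refine ih fun a ha => ?_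
      have hpp : v.Pos (π ^ (n + 1)) := by
        right
        rw [v.map_pow hπ0, hπ]
        push_cast
        omega
      have hg : ∀ f, v.Good93 t π f → v.Pos (π ^ (n + 1) * D f) := fun f hf =>
        v.good_pos93 ht hπ0 hπ (v.pos_mul_left93 hpp hDt) (v.pos_mul_left93 hpp hDπ) hf
      have hM : ∀ f, v.Pos f → v.Pos (π ^ (n + 1) * D f) := by
        intro f hf
        have h1 := v.int_of_mul_pos93 hπ0 hπ hf
        have h2 : π ^ (n + 1) * D f =
            π * (π ^ (n + 1) * D (π⁻¹ * f)) + (π⁻¹ * f) * (π ^ (n + 1) * D π) := by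
          have h3 : f = π * (π⁻¹ * f) := by field_simp
          conv_lhs => rw [h3, Derivation.leibniz]
          simp only [smul_eq_mul]
          ring
        rw [h2]
        exact v.pos_add (v.pos_mul_left93 (Or.inr (by omega)) (h _ h1))
          (v.pos_mul_right93 h1 (v.pos_mul_left93 hpp hDπ))
      have hI : ∀ b, v.Itg93 t π b → v.Pos (π ^ (n + 1) * D b) := by
        intro b hb
        have hbi := v.itg_int93 hb
        obtain ⟨Q, hQ, hQc, hb0⟩ := hb
        exact v.itg_pos93 hbi hg h hM Q.natDegree Q hQ rfl hQc (by rw [hb0]; exact v.pos_zero93)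
      obtain ⟨b, s', hb, hs', hs0, hsv, rfl⟩ := hloc a ha
      have h1 := v.der_div_pos93 hs0 hsv (v.itg_int93 hb) (hI b hb) (hI s' hs')
      have h2 := v.int_of_mul_pos93 hπ0 hπ h1
      have h3 : π⁻¹ * (π ^ (n + 1) * D (b / s')) = π ^ n * D (b / s') := by
        rw [pow_succ]
        field_simp
      rwa [h3] at h2
  exact hdesc n hn a ha

/-- Derivations vanishing at `t` and `π` vanish. -/
theorem der_zero (hL : Surf L) {D : Derivation ℂ L L} {t π : L} (ht : ResTr v.v t) (hπ0 : π ≠ 0)
    (hπ : v.v π = 1) (hDt : D t = 0) (hDπ : D π = 0) (a : L) : D a = 0 := by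
  have hfin := v.finite_ext93 hL ht hπ0 hπ
  have hK : ∀ f ∈ IntermediateField.adjoin ℂ {t, π}, D f = 0 := by
    intro f hf
    induction hf using IntermediateField.adjoin_induction with
    | mem x hx =>
      rcases hx with hx | hx
      · rw [hx, hDt]
      · rw [show x = π from hx, hDπ]
    | algebraMap r => exact Derivation.map_algebraMap _ _
    | add x y _ _ hx hy => rw [_root_.map_add, hx, hy, add_zero]
    | inv x _ hx => rw [Derivation.leibniz_inv, hx, smul_zero]
    | mul x y _ _ hx hy => rw [Derivation.leibniz, hx, hy, smul_zero, smul_zero, add_zero]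
  have halg : IsIntegral (IntermediateField.adjoin ℂ {t, π}) a := Algebra.IsIntegral.isIntegral a
  have hmin := minpoly.aeval (IntermediateField.adjoin ℂ {t, π}) a
  have hsep : (aeval a (derivative (minpoly (IntermediateField.adjoin ℂ {t, π}) a))) ≠ 0 :=
    (Algebra.IsSeparable.isSeparable (IntermediateField.adjoin ℂ {t, π}) a).aeval_derivative_ne_zero
      hmin
  have h1 := der_eval93 D a ((minpoly (IntermediateField.adjoin ℂ {t, π}) a).map (algebraMap _ L))
  rw [eval_map_algebraMap, hmin, map_zero, derivative_map, eval_map_algebraMap] at h1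
  have h2 : (((minpoly (IntermediateField.adjoin ℂ {t, π}) a).map (algebraMap _ L)).sum
      fun i c => D c * a ^ i) = 0 := by
    rw [Polynomial.sum_def]
    refine Finset.sum_eq_zero fun i _ => ?_
    have h3 := hK _ ((minpoly (IntermediateField.adjoin ℂ {t, π}) a).coeff i).2
    rw [coeff_map]
    change D (((minpoly (IntermediateField.adjoin ℂ {t, π}) a).coeff i :
      IntermediateField.adjoin ℂ {t, π}) : L) * a ^ i = 0
    rw [h3, zero_mul]
  rw [h2, zero_add] at h1
  exact (mul_eq_zero.1 h1.symm).resolve_left hsep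

end DVal

end LCY
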