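import Pool.Agent.Helper93.LCY.Val5

/-!
Coordinate pairs: B2.
-/

open Polynomial

namespace LCY

variable {L : Type} [Field L] [Algebra ℂ L]

theorem exists_coprime93 {F : Type} [Field F] (R S : F[X]) (hS : S ≠ 0) :
    ∃ g R' S' : F[X], IsCoprime R' S' ∧ R = g * R' ∧ S = g * S' := by
  obtain ⟨g, hg⟩ := (IsPrincipalIdealRing.principal (Ideal.span {R, S})).principal
  have hR : R ∈ Ideal.span {g} := by
    rw [← Ideal.submodule_span_eq, ← hg]
    exact Ideal.subset_span (by simp)
  have hS' : S ∈ Ideal.span {g} := by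
    rw [← Ideal.submodule_span_eq, ← hg]
    exact Ideal.subset_span (by simp)
  have hgm : g ∈ Ideal.span {R, S} := by
    rw [hg]
    exact Submodule.mem_span_singleton_self g
  obtain ⟨R', hR'⟩ := Ideal.mem_span_singleton.1 hR
  obtain ⟨S', hS'⟩ := Ideal.mem_span_singleton.1 hS'
  obtain ⟨U, W, hUW⟩ := Ideal.mem_span_pair.1 hgm
  have hg0 : g ≠ 0 := by
    rintro rfl
    exact hS (by rw [hS', zero_mul])
  refine ⟨g, R', S', ⟨U, W, ?_⟩, hR', hS'⟩
  apply mul_left_cancel₀ hg0
  rw [mul_one]
  conv_rhs => rw [← hUW, hR', hS']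
  ring

theorem der_zero_gen93 {D : Derivation ℂ L L} {s : Set L} (hs : ∀ x ∈ s, D x = 0) :
    ∀ f ∈ IntermediateField.adjoin ℂ s, D f = 0 := by
  intro f hf
  induction hf using IntermediateField.adjoin_induction with
  | mem x hx => exact hs x hx
  | algebraMap r => exact Derivation.map_algebraMap _ _
  | add x y _ _ hx hy => rw [_root_.map_add, hx, hy, add_zero]
  | inv x _ hx => rw [Derivation.leibniz_inv, hx, smul_zero]
  | mul x y _ _ hx hy => rw [Derivation.leibniz, hx, hy, smul_zero, smul_zero, add_zero]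

theorem Bracket.pair_ne_zero (ω : Bracket L) {a b : L}
    (hab : IntermediateField.adjoin ℂ {a, b} = ⊤) : ω.br a b ≠ 0 := by
  intro h
  have hgen : ∀ c : L, ω.br a c = 0 → ω.br b c = 0 → ∀ x, ω.br x c = 0 := by
    intro c h1 h2 x
    refine der_zero_gen93 (D := ω.der93 c) (s := {a, b}) ?_ x (by rw [hab]; trivial)
    rintro y (hy | hy)
    · rw [hy]
      exact h1
    · rw [show y = b from hy]
      exact h2
  have h1 := hgen a (ω.alt a) (by rw [ω.skew, h, neg_zero])
  have h2 := hgen b h (ω.alt b)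
  obtain ⟨x, y, hxy⟩ := ω.ne_zero
  exact hxy (hgen y (by rw [ω.skew, h1, neg_zero]) (by rw [ω.skew, h2, neg_zero]) x)

namespace DVal

variable (v : DVal L)

theorem resTr_of {a : L} (ha : v.Int a) (h : ∀ c : ℂ, ¬ v.Pos (a - algebraMap ℂ L c)) :
    ResTr v.v a := by
  intro P hP
  have hfac := (IsAlgClosed.splits P).eq_prod_roots
  have h1 : aeval a P = algebraMap ℂ L P.leadingCoeff *
      (P.roots.map fun r => a - algebraMap ℂ L r).prod := by
    conv_lhs => rw [hfac]
    rw [_root_.map_mul, aeval_C, map_multiset_prod, Multiset.map_map]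
    congr 2
    apply Multiset.map_congr rfl
    intro r _
    simp
  have h2 : ∀ m : Multiset ℂ, (m.map fun r => a - algebraMap ℂ L r).prod ≠ 0 ∧
      v.v (m.map fun r => a - algebraMap ℂ L r).prod = 0 := by
    intro m
    induction m using Multiset.induction with
    | empty =>
      rw [Multiset.map_zero, Multiset.prod_zero]
      exact ⟨one_ne_zero, v.map_one⟩
    | cons r m ih =>
      rw [Multiset.map_cons, Multiset.prod_cons]
      obtain ⟨h3, h4⟩ := v.unit_of93 (v.int_sub ha (v.int_const r)) (h r)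
      exact ⟨mul_ne_zero h3 ih.1, by rw [v.map_mul _ _ h3 ih.1, h4, ih.2, add_zero]⟩
  have h3 : P.leadingCoeff ≠ 0 := leadingCoeff_ne_zero.2 hP
  have h4 : algebraMap ℂ L P.leadingCoeff ≠ 0 := by
    rw [Ne, map_eq_zero]
    exact h3
  rw [h1]
  exact ⟨mul_ne_zero h4 (h2 _).1, by
    rw [v.map_mul _ _ h4 (h2 _).1, v.map_const _ h3, (h2 _).2, add_zero]⟩

theorem resTr_not_const93 {a : L} (h : ResTr v.v a) (c : ℂ) : ¬ v.Pos (a - algebraMap ℂ L c) := by
  have h1 := h (X - C c) (X_sub_C_ne_zero c)
  rw [map_sub, aeval_X, aeval_C] at h1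
  exact v.not_pos_of_unit93 h1.1 h1.2

theorem field_single93 {a : L} (h : ResTr v.v a) {f : L} (hf : f ∈ IntermediateField.adjoin ℂ {a}) :
    f = 0 ∨ v.v f = 0 := by
  rw [IntermediateField.mem_adjoin_simple_iff] at hf
  obtain ⟨r, s, rfl⟩ := hf
  by_cases hr : r = 0
  · left
    rw [hr, map_zero, zero_div]
  by_cases hs : s = 0
  · left
    rw [hs, map_zero, div_zero]
  right
  rw [v.map_div (h r hr).1 (h s hs).1, (h r hr).2, (h s hs).2, sub_zero]

theorem br_pair_left93 (hL : Surf L) (ω : Bracket L) {a b : L}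
    (hab : IntermediateField.adjoin ℂ {a, b} = ⊤) (ha : v.Int a) (hb : v.Int b)
    (h : ∀ c : ℂ, ¬ v.Pos (a - algebraMap ℂ L c)) : v.v (ω.br a b) = - v.wt ω := by
  have hne := ω.pair_ne_zero hab
  have hra := v.resTr_of ha h
  obtain ⟨π, hπ0, hπ⟩ := v.exists_unif
  obtain ⟨h1, h2⟩ := v.br_val hL ω hra hπ0 hπ
  refine le_antisymm ?_ (v.br_ge hL ω ha hb hne)
  set F := IntermediateField.adjoin ℂ {a} with hF
  let D : Derivation ℂ L L := (- (ω.br a b)⁻¹) • ω.der93 a
  have hDx : ∀ x, D x = (ω.br a b)⁻¹ * ω.br a x := by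
    intro x
    change (- (ω.br a b)⁻¹) * ω.br x a = _
    rw [ω.skew x a]
    ring
  have hDF : ∀ f ∈ F, D f = 0 := by
    refine der_zero_gen93 ?_
    intro x hx
    rw [show x = a from hx, hDx, ω.alt, mul_zero]
  have hDb : D b = 1 := by
    rw [hDx, inv_mul_cancel₀ hne]
  have hFi : ∀ f : F, v.Int (f : L) := by
    intro f
    rcases v.field_single93 hra f.2 with h3 | h3
    · exact Or.inl h3
    · exact Or.inr h3.ge
  have hPi : ∀ P : F[X], v.Int (aeval b P) := by
    intro P
    rw [aeval_eq_sum_range]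
    refine v.int_sum _ _ fun i _ => ?_
    rw [Algebra.smul_def]
    exact v.int_mul (hFi _) (v.int_pow hb i)
  have hDP : ∀ P : F[X], D (aeval b P) = aeval b (derivative P) := by
    intro P
    have h3 := der_eval93 D b (P.map (algebraMap F L))
    rw [eval_map_algebraMap, derivative_map, eval_map_algebraMap, hDb, mul_one] at h3
    rw [h3]
    have h4 : ((P.map (algebraMap F L)).sum fun i c => D c * b ^ i) = 0 := by
      rw [Polynomial.sum_def]
      refine Finset.sum_eq_zero fun i _ => ?_
      rw [coeff_map]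
      change D ((P.coeff i : F) : L) * b ^ i = 0
      rw [hDF _ (P.coeff i).2, zero_mul]
    rw [h4, zero_add]
  have hDV : ∀ x, v.Int x → v.Int (D x) := by
    intro x hx
    have hxm : x ∈ IntermediateField.adjoin F {b} := by
      have h3 : IntermediateField.adjoin ℂ {a, b} ≤
          (IntermediateField.adjoin F {b}).restrictScalars ℂ := by
        apply IntermediateField.adjoin_le_iff.2
        rintro y (hy | hy)
        · rw [hy]
          exact IntermediateField.algebraMap_mem (IntermediateField.adjoin F {b})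
            (⟨a, IntermediateField.subset_adjoin _ _ rfl⟩ : F)
        · rw [show y = b from hy]
          exact (IntermediateField.mem_restrictScalars (K := ℂ)).2
            (IntermediateField.mem_adjoin_simple_self F b)
      rw [hab] at h3
      exact h3 (IntermediateField.mem_top)
    rw [IntermediateField.mem_adjoin_simple_iff] at hxm
    obtain ⟨R, S, hxRS⟩ := hxm
    by_cases hx0 : x = 0
    · rw [hx0, map_zero]
      exact v.int_zero
    have hS0 : aeval b S ≠ 0 := fun h3 => hx0 (by rw [hxRS, h3, div_zero])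
    have hS : S ≠ 0 := fun h3 => hS0 (by rw [h3, map_zero])
    obtain ⟨g, R', S', hcop, hRg, hSg⟩ := exists_coprime93 R S hS
    have hg0 : aeval b g ≠ 0 := by
      intro h3
      apply hS0
      rw [hSg, _root_.map_mul, h3, zero_mul]
    have hS'0 : aeval b S' ≠ 0 := by
      intro h3
      apply hS0
      rw [hSg, _root_.map_mul, h3, mul_zero]
    have hx' : x = aeval b R' / aeval b S' := by
      rw [hxRS, hRg, hSg, _root_.map_mul, _root_.map_mul]
      field_simp
    have hSu : ¬ v.Pos (aeval b S') := by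
      intro h3
      have h4 : v.Pos (aeval b R') := by
        have h5 : aeval b R' = x * aeval b S' := by
          rw [hx']
          field_simp
        rw [h5]
        exact v.pos_mul_right93 hx h3
      obtain ⟨U, W, hUW⟩ := hcop
      have h5 := congrArg (aeval b) hUW
      rw [_root_.map_add, _root_.map_mul, _root_.map_mul, _root_.map_one] at h5
      apply v.not_pos_one
      rw [← h5]
      exact v.pos_add (v.pos_mul_right93 (hPi U) h4) (v.pos_mul_right93 (hPi W) h3)
    obtain ⟨_, hSv⟩ := v.unit_of93 (hPi S') hSu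
    have h6 := v.der_div_int93 (D := D) (c := 1) hS'0 hSv (hPi R')
      (by rw [one_mul, hDP]; exact hPi _) (by rw [one_mul, hDP]; exact hPi _)
    rwa [one_mul, ← hx'] at h6
  have h3 := hDV π (Or.inr (by omega))
  rw [hDx] at h3
  rw [← h2]
  exact v.le_of_int_div93 hne h1 h3

/-- B2: the bracket of a coordinate pair at a valuation whose centre in the affine plane is a
curve. -/
theorem br_pair (hL : Surf L) (ω : Bracket L) {a b : L}
    (hab : IntermediateField.adjoin ℂ {a, b} = ⊤) (ha : v.Int a) (hb : v.Int b)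
    (h : (∀ c : ℂ, ¬ v.Pos (a - algebraMap ℂ L c)) ∨ ∀ c : ℂ, ¬ v.Pos (b - algebraMap ℂ L c)) :
    ω.br a b ≠ 0 ∧ v.v (ω.br a b) = - v.wt ω := by
  have hne := ω.pair_ne_zero hab
  refine ⟨hne, ?_⟩
  rcases h with h | h
  · exact v.br_pair_left93 hL ω hab ha hb h
  · have h1 := v.br_pair_left93 hL ω (by rw [Set.pair_comm]; exact hab) hb ha h
    rwa [ω.skew b a, v.map_neg hne] at h1

end DVal

end LCY
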